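import Mathlib

/-!
# An abstract form of Turán's inequality, and two instances
-/

set_option autoImplicit false

namespace Pool.Agent.H172.EW

open Finset

open Classical in
/-- **Turán's inequality, abstract form.** -/
theorem turan_abs {α : Type} (X : Finset α) (P : Finset ℕ) (E : ℕ → α → Prop) (a : ℕ → ℝ)
    (W e : ℝ) (hW : (X.card : ℝ) ≤ W) (ha : ∀ p ∈ P, 0 ≤ a p) (he : 0 ≤ e)
    (h1 : ∀ p ∈ P, W * a p - e ≤ ((X.filter (E p)).card : ℝ))
    (h2 : ∀ p ∈ P, ((X.filter (E p)).card : ℝ) ≤ W * a p)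
    (h3 : ∀ p ∈ P, ∀ p' ∈ P, p ≠ p' →
      ((X.filter fun x => E p x ∧ E p' x).card : ℝ) ≤ W * (a p * a p')) :
    ∑ x ∈ X, (((P.filter fun p => E p x).card : ℝ) - ∑ p ∈ P, a p) ^ 2 ≤
      W * (∑ p ∈ P, a p) + 2 * (∑ p ∈ P, a p) * (e * P.card) := by
  set A : ℝ := ∑ p ∈ P, a p with hA
  have hA0 : 0 ≤ A := Finset.sum_nonneg ha
  have hg : ∀ x, ((P.filter fun p => E p x).card : ℝ) = ∑ p ∈ P, if E p x then (1 : ℝ) else 0 := by
    intro x
    rw [Finset.card_filter]
    push_cast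
    rfl
  have s1 : ∑ x ∈ X, ((P.filter fun p => E p x).card : ℝ) = ∑ p ∈ P, ((X.filter (E p)).card : ℝ) := by
    simp only [hg]
    rw [Finset.sum_comm]
    refine Finset.sum_congr rfl fun p _ => ?_
    rw [Finset.card_filter]
    push_cast
    rfl
  have s2 : ∑ x ∈ X, ((P.filter fun p => E p x).card : ℝ) ^ 2 =
      ∑ p ∈ P, ∑ p' ∈ P, ((X.filter fun x => E p x ∧ E p' x).card : ℝ) := by
    have e1 : ∀ x, ((P.filter fun p => E p x).card : ℝ) ^ 2 =
        ∑ p ∈ P, ∑ p' ∈ P, if E p x ∧ E p' x then (1 : ℝ) else 0 := by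
      intro x
      rw [hg, sq, Finset.sum_mul_sum]
      refine Finset.sum_congr rfl fun p _ => Finset.sum_congr rfl fun p' _ => ?_
      by_cases h : E p x <;> by_cases h' : E p' x <;> simp [h, h']
    simp only [e1]
    rw [Finset.sum_comm]
    refine Finset.sum_congr rfl fun p _ => ?_
    rw [Finset.sum_comm]
    refine Finset.sum_congr rfl fun p' _ => ?_
    rw [Finset.card_filter]
    push_cast
    rfl
  have s3 : ∑ x ∈ X, ((P.filter fun p => E p x).card : ℝ) ^ 2 ≤ W * A ^ 2 + W * A := by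
    rw [s2]
    have hW0 : 0 ≤ W := le_trans (Nat.cast_nonneg _) hW
    have e2 : ∀ p ∈ P, ∑ p' ∈ P, ((X.filter fun x => E p x ∧ E p' x).card : ℝ) ≤
        W * (a p * A) + W * a p := by
      intro p hp
      have e3 : ∀ p' ∈ P, ((X.filter fun x => E p x ∧ E p' x).card : ℝ) ≤
          W * (a p * a p') + if p' = p then W * a p else 0 := by
        intro p' hp'
        by_cases h : p' = p
        · subst h
          rw [if_pos rfl]
          have h4 : (X.filter fun x => E p' x ∧ E p' x) = X.filter (E p') := by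
            ext x; simp
          rw [h4]
          have h5 : 0 ≤ W * (a p' * a p') := mul_nonneg hW0 (mul_self_nonneg _)
          linarith [h2 p' hp]
        · rw [if_neg h, add_zero]
          exact h3 p hp p' hp' (fun h' => h h'.symm)
      refine (Finset.sum_le_sum e3).trans ?_
      rw [Finset.sum_add_distrib, Finset.sum_ite_eq' P p, if_pos hp, ← Finset.mul_sum,
        ← Finset.mul_sum]
    refine (Finset.sum_le_sum e2).trans ?_
    rw [Finset.sum_add_distrib, ← Finset.mul_sum, ← Finset.sum_mul, ← Finset.mul_sum]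
    rw [sq]
  have s4 : W * A - e * P.card ≤ ∑ x ∈ X, ((P.filter fun p => E p x).card : ℝ) := by
    rw [s1, hA, Finset.mul_sum]
    have : ∑ p ∈ P, (W * a p - e) ≤ ∑ p ∈ P, ((X.filter (E p)).card : ℝ) := Finset.sum_le_sum h1
    rw [Finset.sum_sub_distrib, Finset.sum_const, nsmul_eq_mul] at this
    linarith
  have s5 : ∑ x ∈ X, (((P.filter fun p => E p x).card : ℝ) - A) ^ 2 =
      ∑ x ∈ X, ((P.filter fun p => E p x).card : ℝ) ^ 2 -
        2 * A * ∑ x ∈ X, ((P.filter fun p => E p x).card : ℝ) + X.card * A ^ 2 := by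
    rw [Finset.mul_sum, ← nsmul_eq_mul, ← Finset.sum_const, ← Finset.sum_sub_distrib,
      ← Finset.sum_add_distrib]
    refine Finset.sum_congr rfl fun x _ => by ring
  rw [s5]
  have s6 : (X.card : ℝ) * A ^ 2 ≤ W * A ^ 2 := mul_le_mul_of_nonneg_right hW (sq_nonneg _)
  have s7 : 2 * A * (W * A - e * P.card) ≤
      2 * A * ∑ x ∈ X, ((P.filter fun p => E p x).card : ℝ) :=
    mul_le_mul_of_nonneg_left s4 (by positivity)
  nlinarith

open Classical in
/-- Chebyshev's inequality. -/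
theorem dev_abs {α : Type} (X : Finset α) (P : Finset ℕ) (E : ℕ → α → Prop) (a : ℕ → ℝ)
    (W e : ℝ) (hW : (X.card : ℝ) ≤ W) (ha : ∀ p ∈ P, 0 ≤ a p) (he : 0 ≤ e)
    (h1 : ∀ p ∈ P, W * a p - e ≤ ((X.filter (E p)).card : ℝ))
    (h2 : ∀ p ∈ P, ((X.filter (E p)).card : ℝ) ≤ W * a p)
    (h3 : ∀ p ∈ P, ∀ p' ∈ P, p ≠ p' →
      ((X.filter fun x => E p x ∧ E p' x).card : ℝ) ≤ W * (a p * a p'))
    (hA : 0 < ∑ p ∈ P, a p) :
    ((X.filter fun x => ((P.filter fun p => E p x).card : ℝ) ≤ 7 / 8 * ∑ p ∈ P, a p ∨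
      9 / 8 * ∑ p ∈ P, a p ≤ ((P.filter fun p => E p x).card : ℝ)).card : ℝ) ≤
      64 * (W + 2 * (e * P.card)) / ∑ p ∈ P, a p := by
  have h := turan_abs X P E a W e hW ha he h1 h2 h3
  set A : ℝ := ∑ p ∈ P, a p with hA'
  set B := X.filter fun x => ((P.filter fun p => E p x).card : ℝ) ≤ 7 / 8 * A ∨
      9 / 8 * A ≤ ((P.filter fun p => E p x).card : ℝ) with hB
  have h4 : (B.card : ℝ) * (A ^ 2 / 64) ≤ W * A + 2 * A * (e * P.card) := by
    rw [← nsmul_eq_mul]
    refine (Finset.card_nsmul_le_sum B (fun x => (((P.filter fun p => E p x).card : ℝ) - A) ^ 2)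
      (A ^ 2 / 64) ?_).trans ?_
    · intro x hx
      rcases (Finset.mem_filter.1 hx).2 with h5 | h5
      · nlinarith
      · nlinarith
    · exact (Finset.sum_le_sum_of_subset_of_nonneg (Finset.filter_subset _ _)
        (fun x _ _ => sq_nonneg _)).trans h
  rw [le_div_iff₀ hA]
  have h6 : (B.card : ℝ) * A * (A / 64) ≤ (64 * (W + 2 * (e * P.card))) * (A / 64) := by
    nlinarith
  exact le_of_mul_le_mul_right h6 (by positivity)

/-- the number of the primes of `P` which divide `n` -/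
def om (P : Finset ℕ) (n : ℕ) : ℕ := (P.filter fun p => p ∣ n).card

/-- the sum of the reciprocals -/
noncomputable def mu (P : Finset ℕ) : ℝ := ∑ p ∈ P, 1 / (p : ℝ)

theorem dev_om (P : Finset ℕ) (hP : ∀ p ∈ P, p.Prime) (T : ℕ) (hμ : 0 < mu P) :
    (((Ioc 0 T).filter fun x => (om P x : ℝ) ≤ 7 / 8 * mu P ∨
      9 / 8 * mu P ≤ (om P x : ℝ)).card : ℝ) ≤ 64 * (T + 2 * P.card) / mu P := by
  classical
  have hdiv : ∀ d : ℕ, ∀ inst : DecidablePred fun x => d ∣ x,
      ((@Finset.filter ℕ (fun x => d ∣ x) inst (Ioc 0 T)).card) = T / d := by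
    intro d inst
    rw [← Nat.Ioc_filter_dvd_card_eq_div]
    congr
  have h := dev_abs (Ioc 0 T) P (fun p x => p ∣ x) (fun p => 1 / (p : ℝ)) T 1 (by simp)
    (fun p _ => by positivity) zero_le_one ?_ ?_ ?_ hμ
  · rw [one_mul] at h
    unfold om mu
    convert h
  · intro p hp
    rw [hdiv p _]
    have h1 : (T : ℝ) / p < ((T / p : ℕ) : ℝ) + 1 := by
      rw [div_lt_iff₀ (by exact_mod_cast (hP p hp).pos)]
      have := Nat.lt_div_mul_add (a := T) (hP p hp).pos
      have h2 : T < (T / p + 1) * p := by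
        rw [add_mul, one_mul]; exact this
      exact_mod_cast h2
    rw [mul_one_div]
    linarith
  · intro p hp
    rw [hdiv p _, mul_one_div]
    exact Nat.cast_div_le
  · intro p hp p' hp' hne
    have h1 : ((Ioc 0 T).filter fun x => p ∣ x ∧ p' ∣ x).card = T / (p * p') := by
      rw [← Nat.Ioc_filter_dvd_card_eq_div]
      congr 1
      refine Finset.filter_congr fun x _ => ⟨fun h => ?_, fun h => ?_⟩
      · exact ((Nat.coprime_primes (hP p hp) (hP p' hp')).2 hne).mul_dvd_of_dvd_of_dvd h.1 h.2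
      · exact ⟨dvd_trans (Dvd.intro _ rfl) h, dvd_trans (Dvd.intro_left _ rfl) h⟩
    have h2 : ((T / (p * p') : ℕ) : ℝ) ≤ (T : ℝ) * (1 / (p : ℝ) * (1 / (p' : ℝ))) := by
      refine (Nat.cast_div_le).trans (le_of_eq ?_)
      push_cast
      rw [one_div_mul_one_div, mul_one_div]
    rw [← h1] at h2
    convert h2

/-- the residues modulo `Q` prime to `Q` -/
def UU (Q : ℕ) : Finset ℕ := (range Q).filter fun r => Nat.Coprime Q r

theorem card_UU (Q : ℕ) : (UU Q).card = Q.totient := by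
  unfold UU; rw [Nat.totient]

theorem card_class {D E : ℕ} (hD : 1 < D) (hE : 0 < E) (hDE : Nat.Coprime D E) :
    ((UU (D * E)).filter fun r => r ≡ 1 [MOD D]).card = E.totient := by
  rw [← card_UU]
  refine Finset.card_bij (fun r _ => r % E) ?_ ?_ ?_
  · intro r hr
    simp only [UU, Finset.mem_filter, Finset.mem_range] at hr ⊢
    refine ⟨Nat.mod_lt _ hE, ?_⟩
    have h1 : Nat.Coprime E r := Nat.Coprime.coprime_mul_left hr.1.2
    have h2 : Nat.gcd (r % E) E = Nat.gcd E r := by rw [Nat.gcd_rec E r]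
    rw [Nat.coprime_comm]
    exact h2.trans h1
  · intro r hr r' hr' h
    simp only [UU, Finset.mem_filter, Finset.mem_range] at hr hr'
    have h1 : r ≡ r' [MOD E] := h
    have h2 : r ≡ r' [MOD D] := hr.2.trans hr'.2.symm
    exact Nat.ModEq.eq_of_lt_of_lt ((Nat.modEq_and_modEq_iff_modEq_mul hDE).1 ⟨h2, h1⟩)
      hr.1.1 hr'.1.1
  · intro s hs
    simp only [UU, Finset.mem_filter, Finset.mem_range] at hs
    obtain ⟨k, hk1, hk2⟩ := Nat.chineseRemainder hDE 1 s
    have hlt : (k % (D * E)) < D * E := Nat.mod_lt _ (by positivity)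
    have m1 : k % (D * E) ≡ 1 [MOD D] := ((Nat.mod_modEq k (D * E)).of_mul_right E).trans hk1
    have m2 : k % (D * E) ≡ s [MOD E] := ((Nat.mod_modEq k (D * E)).of_mul_left D).trans hk2
    refine ⟨k % (D * E), ?_, ?_⟩
    · simp only [UU, Finset.mem_filter, Finset.mem_range]
      refine ⟨⟨hlt, ?_⟩, m1⟩
      refine Nat.Coprime.mul_left ?_ ?_
      · rw [Nat.coprime_iff_gcd_eq_one, Nat.gcd_comm]
        have := m1.gcd_eq
        rw [this]; simp
      · rw [Nat.coprime_iff_gcd_eq_one, Nat.gcd_comm]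
        have := m2.gcd_eq
        rw [this, Nat.gcd_comm]
        exact hs.2
    · have h3 : (k % (D * E)) % E = s % E := m2
      rw [h3, Nat.mod_eq_of_lt hs.1]

theorem dev_UU (P : Finset ℕ) (hP : ∀ p ∈ P, p.Prime) (hμ : 0 < mu P) :
    (((UU (∏ p ∈ P, p)).filter fun r =>
      (((P.filter fun p => r ≡ 1 [MOD p]).card : ℕ) : ℝ) ≤ 7 / 8 * mu P).card : ℝ) ≤
      64 * ((∏ p ∈ P, p).totient : ℝ) / mu P := by
  classical
  set Q := ∏ p ∈ P, p with hQ
  have hpos : ∀ S : Finset ℕ, S ⊆ P → 0 < ∏ p ∈ S, p := fun S hS =>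
    Finset.prod_pos fun p hp => (hP p (hS hp)).pos
  have hcl : ∀ S : Finset ℕ, S ⊆ P → S.Nonempty →
      (((UU Q).filter fun r => r ≡ 1 [MOD ∏ p ∈ S, p]).card : ℝ) *
        ((∏ p ∈ S, p).totient : ℝ) = (Q.totient : ℝ) := by
    intro S hS hne
    have h1 : Q = (∏ p ∈ S, p) * ∏ p ∈ P \ S, p := by
      rw [hQ, mul_comm, Finset.prod_sdiff hS]
    have hc : Nat.Coprime (∏ p ∈ S, p) (∏ p ∈ P \ S, p) := by
      refine Nat.Coprime.prod_left fun p hp => Nat.Coprime.prod_right fun p' hp' => ?_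
      refine (Nat.coprime_primes (hP p (hS hp)) (hP p' (Finset.mem_sdiff.1 hp').1)).2 ?_
      rintro rfl
      exact (Finset.mem_sdiff.1 hp').2 hp
    have h2 : 1 < ∏ p ∈ S, p := by
      obtain ⟨p, hp⟩ := hne
      refine lt_of_lt_of_le (hP p (hS hp)).one_lt (Nat.le_of_dvd (hpos S hS) ?_)
      exact Finset.dvd_prod_of_mem _ hp
    have h3 := card_class h2 (hpos _ Finset.sdiff_subset) hc
    rw [← h1] at h3
    rw [h3, h1, Nat.totient_mul hc]
    push_cast
    ring
  have hφ : ∀ p ∈ P, ((p.totient : ℕ) : ℝ) = (p : ℝ) - 1 := by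
    intro p hp
    rw [Nat.totient_prime (hP p hp), Nat.cast_sub (hP p hp).one_le, Nat.cast_one]
  have hp1 : ∀ p ∈ P, (0 : ℝ) < (p : ℝ) - 1 := by
    intro p hp
    have : (1 : ℝ) < p := by exact_mod_cast (hP p hp).one_lt
    linarith
  have h1c : ∀ p ∈ P, (((UU Q).filter fun r => r ≡ 1 [MOD p]).card : ℝ) =
      (Q.totient : ℝ) * (1 / ((p : ℝ) - 1)) := by
    intro p hp
    have h := hcl {p} (by simpa using hp) (by simp)
    rw [Finset.prod_singleton, hφ p hp] at h
    rw [mul_one_div, eq_div_iff (hp1 p hp).ne']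
    exact h
  have h2c : ∀ p ∈ P, ∀ p' ∈ P, p ≠ p' →
      (((UU Q).filter fun r => r ≡ 1 [MOD p] ∧ r ≡ 1 [MOD p']).card : ℝ) =
      (Q.totient : ℝ) * (1 / ((p : ℝ) - 1) * (1 / ((p' : ℝ) - 1))) := by
    intro p hp p' hp' hne
    have hc := (Nat.coprime_primes (hP p hp) (hP p' hp')).2 hne
    have h := hcl {p, p'} (by intro x hx; simp at hx; rcases hx with rfl | rfl <;> assumption)
      (by simp)
    rw [Finset.prod_pair hne, Nat.totient_mul hc] at h
    push_cast at h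
    rw [hφ p hp, hφ p' hp'] at h
    have h4 : ((UU Q).filter fun r => r ≡ 1 [MOD p] ∧ r ≡ 1 [MOD p']) =
        (UU Q).filter fun r => r ≡ 1 [MOD p * p'] :=
      Finset.filter_congr fun r _ => Nat.modEq_and_modEq_iff_modEq_mul hc
    rw [h4, one_div_mul_one_div, mul_one_div,
      eq_div_iff (mul_pos (hp1 p hp) (hp1 p' hp')).ne']
    exact h
  have hle : mu P ≤ ∑ p ∈ P, 1 / ((p : ℝ) - 1) := by
    unfold mu
    refine Finset.sum_le_sum fun p hp => ?_
    exact one_div_le_one_div_of_le (hp1 p hp) (by linarith)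
  have hν : 0 < ∑ p ∈ P, 1 / ((p : ℝ) - 1) := lt_of_lt_of_le hμ hle
  have h := dev_abs (UU Q) P (fun p r => r ≡ 1 [MOD p]) (fun p => 1 / ((p : ℝ) - 1))
    (Q.totient : ℝ) 0 (by rw [card_UU]) (fun p hp => (one_div_pos.2 (hp1 p hp)).le) le_rfl
    ?_ ?_ ?_ hν
  · have h5 : (((UU Q).filter fun r =>
        (((P.filter fun p => r ≡ 1 [MOD p]).card : ℕ) : ℝ) ≤ 7 / 8 * mu P).card : ℝ) ≤
        64 * (Q.totient : ℝ) / ∑ p ∈ P, 1 / ((p : ℝ) - 1) := by
      rw [zero_mul, mul_zero, add_zero] at h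
      refine le_trans ?_ h
      have h6 : ∀ A B : Finset ℕ, A ⊆ B → (A.card : ℝ) ≤ B.card := fun A B hAB => by
        exact_mod_cast Finset.card_le_card hAB
      refine h6 _ _ fun r hr => ?_
      obtain ⟨hr1, hr2⟩ := Finset.mem_filter.1 hr
      refine Finset.mem_filter.2 ⟨hr1, Or.inl ?_⟩
      refine le_trans (le_of_eq ?_) (hr2.trans (mul_le_mul_of_nonneg_left hle (by norm_num)))
      congr
    refine h5.trans ?_
    exact div_le_div_of_nonneg_left (by positivity) hμ hle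
  · intro p hp
    have := h1c p hp
    rw [sub_zero]
    refine le_of_eq ?_
    rw [← this]
    congr
  · intro p hp
    refine le_of_eq ?_
    rw [← h1c p hp]
    congr
  · intro p hp p' hp' hne
    refine le_of_eq ?_
    rw [← h2c p hp p' hp' hne]
    congr

end Pool.Agent.H172.EW
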