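import Mathlib
import Pool.Graph.R_seed8.Helper602.MK.J3
import Pool.Agent.H172.EW.Turan

/-!
# Primes in dyadic intervals and residue classes
-/

set_option autoImplicit false

namespace Pool.Agent.H172.EW

open Finset

/-- the primes in `[2 ^ j, 2 ^ (j + 1))` -/
def Pj (j : ℕ) : Finset ℕ := (range (2 ^ (j + 1))).filter fun q => q.Prime ∧ 2 ^ j ≤ q

/-- the statement of the Brun-Titchmarsh inequality with the constant `C` -/
def BT (C : ℝ) : Prop := 1 ≤ C ∧ ∀ (a q N : ℕ), 1 ≤ q → 2 ≤ N →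
    (((Finset.range N).filter (fun k => (a + k * q).Prime)).card : ℝ) ≤
      C * ((q : ℝ) / (Nat.totient q : ℝ)) * N / Real.log N

theorem exists_BT : ∃ C : ℝ, BT C := Pool.Agent.Helper602.MK.BTLib.brun_titchmarsh

theorem class_count {C : ℝ} (hC : BT C) {Q : ℕ} (hQ : 0 < Q) {j : ℕ} (hj : 2 * Q ≤ j) (r : ℕ) :
    (((Pj j).filter fun q => q % Q = r).card : ℝ) ≤ 16 * C * 2 ^ j / (Q.totient * j) := by
  obtain ⟨hC1, hBT⟩ := hC
  have hj0 : 0 < j := by omega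
  have hjR : (0 : ℝ) < j := by exact_mod_cast hj0
  have hQR : (0 : ℝ) < Q := by exact_mod_cast hQ
  have hφ : (0 : ℝ) < Q.totient := by exact_mod_cast Nat.totient_pos.2 hQ
  have hQ2 : Q ^ 2 ≤ 2 ^ j := by
    calc Q ^ 2 ≤ (2 ^ Q) ^ 2 := Nat.pow_le_pow_left (Nat.lt_two_pow_self).le 2
      _ = 2 ^ (2 * Q) := by rw [← pow_mul, mul_comm]
      _ ≤ 2 ^ j := Nat.pow_le_pow_right (by norm_num) hj
  have hQj : Q ≤ 2 ^ j := le_trans (Nat.le_self_pow (by norm_num) Q) hQ2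
  set N : ℕ := 2 ^ (j + 1) / Q + 1 with hN
  have h1 : 1 ≤ 2 ^ (j + 1) / Q := by
    rw [Nat.one_le_div_iff hQ, pow_succ]; omega
  have hinj : ((Pj j).filter fun q => q % Q = r).card ≤
      ((Finset.range N).filter (fun k => (r + k * Q).Prime)).card := by
    refine Finset.card_le_card_of_injOn (fun q => q / Q) ?_ ?_
    · intro q hq
      have hq' := Finset.mem_filter.1 (Finset.mem_coe.1 hq)
      have hq2 := Finset.mem_filter.1 hq'.1
      have hq3 := Finset.mem_range.1 hq2.1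
      refine Finset.mem_coe.2 (Finset.mem_filter.2 ⟨Finset.mem_range.2 ?_, ?_⟩)
      · exact Nat.lt_succ_of_le (Nat.div_le_div_right hq3.le)
      · have : r + q / Q * Q = q := by
          rw [← hq'.2, mul_comm]; exact Nat.mod_add_div q Q
        rw [this]; exact hq2.2.1
    · intro q hq q' hq' h
      have h2 := (Finset.mem_filter.1 (Finset.mem_coe.1 hq)).2
      have h3 := (Finset.mem_filter.1 (Finset.mem_coe.1 hq')).2
      have h4 : q / Q = q' / Q := h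
      rw [← Nat.mod_add_div q Q, ← Nat.mod_add_div q' Q, h2, h3, h4]
  have hX : (2 : ℝ) ^ (j + 1) / Q ≤ N := by
    have h2 : 2 ^ (j + 1) ≤ N * Q := by
      have := Nat.lt_div_mul_add (a := 2 ^ (j + 1)) hQ
      rw [hN, add_mul, one_mul]; exact this.le
    rw [div_le_iff₀ hQR]
    exact_mod_cast h2
  have hNu : (N : ℝ) ≤ 2 * ((2 : ℝ) ^ (j + 1) / Q) := by
    have h2 : ((2 ^ (j + 1) / Q : ℕ) : ℝ) ≤ (2 : ℝ) ^ (j + 1) / Q := by
      refine Nat.cast_div_le.trans (le_of_eq ?_)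
      push_cast; rfl
    have h3 : (1 : ℝ) ≤ ((2 ^ (j + 1) / Q : ℕ) : ℝ) := by exact_mod_cast h1
    rw [hN]; push_cast at h2 h3 ⊢
    linarith
  have hN0 : (0 : ℝ) < N := by
    have : 0 < N := by omega
    exact_mod_cast this
  have hsq : (2 : ℝ) ^ j ≤ (N : ℝ) ^ 2 := by
    have h2 : ((2 : ℝ) ^ (j + 1) / Q) ^ 2 ≤ (N : ℝ) ^ 2 :=
      pow_le_pow_left₀ (by positivity) hX 2
    refine le_trans ?_ h2
    rw [div_pow, le_div_iff₀ (by positivity)]
    have h3 : (Q : ℝ) ^ 2 ≤ (2 : ℝ) ^ j := by exact_mod_cast hQ2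
    have h4 : (0 : ℝ) < (2 : ℝ) ^ j := by positivity
    calc (2 : ℝ) ^ j * Q ^ 2 ≤ 2 ^ j * 2 ^ j := by gcongr
      _ ≤ ((2 : ℝ) ^ (j + 1)) ^ 2 := by
        have h5 : (2 : ℝ) ^ (j + 1) = 2 * 2 ^ j := by ring
        rw [h5]; nlinarith
  have hlog : (j : ℝ) / 4 ≤ Real.log N := by
    have h2 := Real.log_le_log (by positivity) hsq
    rw [Real.log_pow, Real.log_pow] at h2
    have h3 : (1 : ℝ) / 2 ≤ Real.log 2 := by linarith [Real.log_two_gt_d9]
    push_cast at h2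
    nlinarith
  have h5 := hBT r Q N hQ (by omega)
  calc (((Pj j).filter fun q => q % Q = r).card : ℝ)
      ≤ (((Finset.range N).filter (fun k => (r + k * Q).Prime)).card : ℝ) := by
        exact_mod_cast hinj
    _ ≤ C * ((Q : ℝ) / (Nat.totient Q : ℝ)) * N / Real.log N := h5
    _ ≤ C * ((Q : ℝ) / (Nat.totient Q : ℝ)) * (2 * ((2 : ℝ) ^ (j + 1) / Q)) / (j / 4) := by
        gcongr
    _ = 16 * C * 2 ^ j / (Q.totient * j) := by
        rw [pow_succ]
        field_simp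
        ring

/-- primes in a set of residue classes -/
theorem classes_count {C : ℝ} (hC : BT C) {Q : ℕ} (hQ : 0 < Q) {j : ℕ} (hj : 2 * Q ≤ j)
    (S : Finset ℕ) :
    (((Pj j).filter fun q => q % Q ∈ S).card : ℝ) ≤
      S.card * (16 * C * 2 ^ j / (Q.totient * j)) := by
  have h1 : ((Pj j).filter fun q => q % Q ∈ S).card ≤
      ∑ r ∈ S, ((Pj j).filter fun q => q % Q = r).card := by
    refine le_trans (Finset.card_le_card ?_) Finset.card_biUnion_le
    intro q hq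
    obtain ⟨h1, h2⟩ := Finset.mem_filter.1 hq
    exact Finset.mem_biUnion.2 ⟨q % Q, h2, Finset.mem_filter.2 ⟨h1, rfl⟩⟩
  calc (((Pj j).filter fun q => q % Q ∈ S).card : ℝ)
      ≤ ∑ r ∈ S, (((Pj j).filter fun q => q % Q = r).card : ℝ) := by exact_mod_cast h1
    _ ≤ ∑ r ∈ S, 16 * C * 2 ^ j / (Q.totient * j) :=
        Finset.sum_le_sum fun r _ => class_count hC hQ hj r
    _ = _ := by rw [Finset.sum_const, nsmul_eq_mul]

theorem inv_le {j q : ℕ} (hj : 1 ≤ j) (hq : q ∈ Pj j) :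
    1 / (((q - 1 : ℕ) : ℝ)) ≤ 2 / (2 : ℝ) ^ j := by
  have h1 := (Finset.mem_filter.1 hq).2.2
  have h2 : 2 ≤ 2 ^ j := by
    calc 2 = 2 ^ 1 := by norm_num
      _ ≤ 2 ^ j := Nat.pow_le_pow_right (by norm_num) hj
  have h3 : 2 ^ j ≤ 2 * (q - 1) := by omega
  have h4 : (2 : ℝ) ^ j ≤ 2 * ((q - 1 : ℕ) : ℝ) := by exact_mod_cast h3
  have h5 : (0 : ℝ) < (2 : ℝ) ^ j := by positivity
  have h6 : (0 : ℝ) < ((q - 1 : ℕ) : ℝ) := by linarith
  rw [div_le_div_iff₀ h6 h5]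
  linarith

theorem classes_sum {C : ℝ} (hC : BT C) {Q : ℕ} (hQ : 0 < Q) {j : ℕ} (hj : 2 * Q ≤ j)
    (S : Finset ℕ) :
    ∑ q ∈ (Pj j).filter (fun q => q % Q ∈ S), 1 / (((q - 1 : ℕ) : ℝ)) ≤
      S.card * (32 * C / (Q.totient * j)) := by
  have hj0 : 0 < j := by omega
  have hjR : (0 : ℝ) < j := by exact_mod_cast hj0
  have hφ : (0 : ℝ) < Q.totient := by exact_mod_cast Nat.totient_pos.2 hQ
  calc ∑ q ∈ (Pj j).filter (fun q => q % Q ∈ S), 1 / (((q - 1 : ℕ) : ℝ))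
      ≤ ∑ q ∈ (Pj j).filter (fun q => q % Q ∈ S), 2 / (2 : ℝ) ^ j :=
        Finset.sum_le_sum fun q hq => inv_le (by omega) (Finset.mem_filter.1 hq).1
    _ = (((Pj j).filter fun q => q % Q ∈ S).card : ℝ) * (2 / (2 : ℝ) ^ j) := by
        rw [Finset.sum_const, nsmul_eq_mul]
    _ ≤ (S.card * (16 * C * 2 ^ j / (Q.totient * j))) * (2 / (2 : ℝ) ^ j) := by
        exact mul_le_mul_of_nonneg_right (classes_count hC hQ hj S) (by positivity)
    _ = _ := by field_simp; ring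

theorem all_sum {C : ℝ} (hC : BT C) {j : ℕ} (hj : 2 ≤ j) :
    ∑ q ∈ Pj j, 1 / (((q - 1 : ℕ) : ℝ)) ≤ 32 * C / j := by
  have h := classes_sum hC (Q := 1) one_pos (j := j) (by omega) {0}
  have h1 : (Pj j).filter (fun q => q % 1 ∈ ({0} : Finset ℕ)) = Pj j := by
    refine Finset.filter_true_of_mem fun q _ => ?_
    simp [Nat.mod_one]
  rw [h1] at h
  simpa using h

theorem all_count {C : ℝ} (hC : BT C) {j : ℕ} (hj : 2 ≤ j) :
    ((Pj j).card : ℝ) ≤ 16 * C * 2 ^ j / j := by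
  have h := classes_count hC (Q := 1) one_pos (j := j) (by omega) {0}
  have h1 : (Pj j).filter (fun q => q % 1 ∈ ({0} : Finset ℕ)) = Pj j := by
    refine Finset.filter_true_of_mem fun q _ => ?_
    simp [Nat.mod_one]
  rw [h1] at h
  simpa using h

end Pool.Agent.H172.EW
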