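import Mathlib
import Pool.Agent.H172.EW.Prim

/-!
# The covering of the bad numbers
-/

set_option autoImplicit false

namespace Pool.Agent.H172.EW

open Finset

/-- the number of the primes of `P` whose square divides `n` -/
def om2 (P : Finset ℕ) (n : ℕ) : ℕ := (P.filter fun p => p ^ 2 ∣ n).card

/-- the number of the primes of `P` modulo which `r` is `1` -/
def cl (P : Finset ℕ) (r : ℕ) : ℕ := (P.filter fun p => r ≡ 1 [MOD p]).card

/-- `q = k d + 1` is a prime with `n < q ^ m`, `d ∣ n` and `k ≤ K` -/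
def Wit (m K n q d k : ℕ) : Prop := q.Prime ∧ n < q ^ m ∧ d ∣ n ∧ k ≤ K ∧ q = k * d + 1

/-- the bad numbers -/
def Bad (m K n : ℕ) : Prop := ∃ q d k : ℕ, Wit m K n q d k

theorem om_le {P : Finset ℕ} (hP : ∀ p ∈ P, p.Prime) {k : ℕ} (hk : 0 < k) : om P k ≤ k := by
  have h1 : (P.filter fun p => p ∣ k) ⊆ Ioc 0 k := by
    intro p hp
    obtain ⟨h1, h2⟩ := Finset.mem_filter.1 hp
    exact Finset.mem_Ioc.2 ⟨(hP p h1).pos, Nat.le_of_dvd hk h2⟩
  have h2 := Finset.card_le_card h1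
  rw [Nat.card_Ioc] at h2
  exact h2

theorem om_mul_le {P : Finset ℕ} (hP : ∀ p ∈ P, p.Prime) (a b : ℕ) :
    om P (a * b) ≤ om P a + om P b := by
  unfold om
  refine le_trans (Finset.card_le_card ?_) (Finset.card_union_le _ _)
  intro p hp
  obtain ⟨h1, h2⟩ := Finset.mem_filter.1 hp
  rcases (hP p h1).dvd_mul.1 h2 with h | h
  · exact Finset.mem_union_left _ (Finset.mem_filter.2 ⟨h1, h⟩)
  · exact Finset.mem_union_right _ (Finset.mem_filter.2 ⟨h1, h⟩)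

theorem om_add_le {P : Finset ℕ} (a b : ℕ) :
    om P a + om P b ≤ om P (a * b) + om2 P (a * b) := by
  classical
  unfold om om2
  rw [← Finset.card_union_add_card_inter]
  refine Nat.add_le_add (Finset.card_le_card ?_) (Finset.card_le_card ?_)
  · intro p hp
    rcases Finset.mem_union.1 hp with h | h
    · obtain ⟨h1, h2⟩ := Finset.mem_filter.1 h
      exact Finset.mem_filter.2 ⟨h1, Dvd.dvd.mul_right h2 b⟩
    · obtain ⟨h1, h2⟩ := Finset.mem_filter.1 h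
      exact Finset.mem_filter.2 ⟨h1, Dvd.dvd.mul_left h2 a⟩
  · intro p hp
    obtain ⟨h1, h2⟩ := Finset.mem_inter.1 hp
    obtain ⟨h3, h4⟩ := Finset.mem_filter.1 h1
    obtain ⟨h5, h6⟩ := Finset.mem_filter.1 h2
    refine Finset.mem_filter.2 ⟨h3, ?_⟩
    rw [sq]
    exact Nat.mul_dvd_mul h4 h6

theorem cl_eq {P : Finset ℕ} {q : ℕ} (hq : 1 ≤ q) :
    cl P (q % ∏ p ∈ P, p) = om P (q - 1) := by
  unfold cl om
  congr 1
  refine Finset.filter_congr fun p hp => ?_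
  have h1 : q % (∏ p ∈ P, p) ≡ q [MOD p] :=
    (Nat.mod_modEq q _).of_dvd (Finset.dvd_prod_of_mem _ hp)
  constructor
  · intro h
    have h2 : 1 ≡ q [MOD p] := (h1.symm.trans h).symm
    exact (Nat.modEq_iff_dvd' hq).1 h2
  · intro h
    have h2 : 1 ≡ q [MOD p] := (Nat.modEq_iff_dvd' hq).2 h
    exact h1.trans h2.symm

/-- the exceptional values -/
def Dev (P : Finset ℕ) (x : ℕ) : Prop :=
  (om P x : ℝ) ≤ 7 / 8 * mu P ∨ 9 / 8 * mu P ≤ (om P x : ℝ)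

open Classical in
theorem cover {P : Finset ℕ} (hP : ∀ p ∈ P, p.Prime) {m K N : ℕ} (hμ : 2 * (K : ℝ) ≤ mu P)
    {QQ : Finset ℕ} {B : Finset ℕ} (hB : ∀ n ∈ B, 1 ≤ n ∧ n ≤ N ∧
      ∃ q ∈ QQ, ∃ d k : ℕ, Wit m K n q d k) :
    B ⊆ (((Ioc 0 N).filter fun n => Dev P n) ∪ ((Ioc 0 N).filter fun n => mu P / 8 ≤ (om2 P n : ℝ))) ∪
      ((QQ.biUnion fun q => (range (K + 1)).biUnion fun k =>
        ((Ioc 0 (N * K / (q - 1))).filter fun t => Dev P t).image fun t => (q - 1) / k * t) ∪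
      ((QQ.filter fun q => (cl P (q % ∏ p ∈ P, p) : ℝ) ≤ 7 / 8 * mu P).biUnion fun q =>
        (range (K + 1)).biUnion fun k =>
          (Ioc 0 (N * K / (q - 1))).image fun t => (q - 1) / k * t)) := by
  intro n hn
  obtain ⟨hn1, hnN, q, hqQ, d, k, hq, hnq, hd, hk, hqk⟩ := hB n hn
  by_contra hcon
  simp only [Finset.mem_union, not_or] at hcon
  obtain ⟨⟨c1, c2⟩, c3, c4⟩ := hcon
  have hnI : n ∈ Ioc 0 N := Finset.mem_Ioc.2 ⟨hn1, hnN⟩
  have hq1 := hq.one_lt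
  have hk0 : 0 < k := by
    rcases Nat.eq_zero_or_pos k with h | h
    · subst h; omega
    · exact h
  have hd0 : 0 < d := by
    rcases Nat.eq_zero_or_pos d with h | h
    · subst h; omega
    · exact h
  obtain ⟨t, rfl⟩ := hd
  have ht0 : 0 < t := by
    rcases Nat.eq_zero_or_pos t with h | h
    · subst h; omega
    · exact h
  have hqd : q - 1 = k * d := by omega
  have hdiv : (q - 1) / k = d := by rw [hqd]; exact Nat.mul_div_cancel_left d hk0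
  have htI : t ∈ Ioc 0 (N * K / (q - 1)) := by
    refine Finset.mem_Ioc.2 ⟨ht0, ?_⟩
    rw [Nat.le_div_iff_mul_le (by omega), hqd]
    calc t * (k * d) = (d * t) * k := by ring
      _ ≤ N * K := Nat.mul_le_mul hnN hk
  have hkr : k ∈ range (K + 1) := Finset.mem_range.2 (by omega)
  have d1 : ¬ Dev P (d * t) := fun h => c1 (Finset.mem_filter.2 ⟨hnI, h⟩)
  have d2 : (om2 P (d * t) : ℝ) < mu P / 8 := by
    by_contra h
    exact c2 (Finset.mem_filter.2 ⟨hnI, not_lt.1 h⟩)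
  have d3 : ¬ Dev P t := fun h => c3 (Finset.mem_biUnion.2 ⟨q, hqQ, Finset.mem_biUnion.2
    ⟨k, hkr, Finset.mem_image.2 ⟨t, Finset.mem_filter.2 ⟨htI, h⟩, by rw [hdiv]⟩⟩⟩)
  have d4 : 7 / 8 * mu P < (cl P (q % ∏ p ∈ P, p) : ℝ) := by
    by_contra h
    exact c4 (Finset.mem_biUnion.2 ⟨q, Finset.mem_filter.2 ⟨hqQ, not_lt.1 h⟩,
      Finset.mem_biUnion.2 ⟨k, hkr, Finset.mem_image.2 ⟨t, htI, by rw [hdiv]⟩⟩⟩)
  rw [cl_eq hq.one_lt.le, hqd] at d4
  unfold Dev at d1 d3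
  rw [not_or, not_le, not_le] at d1 d3
  have e1 : (om P (k * d) : ℝ) ≤ K + om P d := by
    have h1 := om_mul_le hP k d
    have h2 := om_le hP hk0
    have h3 : om P (k * d) ≤ K + om P d := by omega
    exact_mod_cast h3
  have e2 : (om P d : ℝ) + om P t ≤ om P (d * t) + om2 P (d * t) := by
    exact_mod_cast om_add_le (P := P) d t
  linarith [d1.2, d3.1]

theorem sq_sum_le {P : Finset ℕ} (hP : ∀ p ∈ P, p.Prime) : ∑ p ∈ P, 1 / ((p : ℝ) ^ 2) ≤ 1 := by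
  have h1 := sum_Ioo_inv_sq_le (α := ℝ) 1 (P.sup id + 1)
  have h2 : ∑ p ∈ P, 1 / ((p : ℝ) ^ 2) ≤ ∑ i ∈ Ioo 1 (P.sup id + 1), ((i : ℝ) ^ 2)⁻¹ := by
    have h3 : P ⊆ Ioo 1 (P.sup id + 1) := by
      intro p hp
      refine Finset.mem_Ioo.2 ⟨(hP p hp).one_lt, Nat.lt_succ_of_le ?_⟩
      exact Finset.le_sup (f := id) hp
    refine le_trans (le_of_eq ?_) (Finset.sum_le_sum_of_subset_of_nonneg h3
      (fun i _ _ => by positivity))
    exact Finset.sum_congr rfl fun p _ => one_div _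
  refine h2.trans (h1.trans ?_)
  norm_num

theorem om2_count {P : Finset ℕ} (hP : ∀ p ∈ P, p.Prime) (hμ : 0 < mu P) (N : ℕ) :
    (((Ioc 0 N).filter fun n => mu P / 8 ≤ (om2 P n : ℝ)).card : ℝ) ≤ 8 * N / mu P := by
  set B := (Ioc 0 N).filter fun n => mu P / 8 ≤ (om2 P n : ℝ) with hB
  have h1 : (B.card : ℝ) * (mu P / 8) ≤ ∑ n ∈ Ioc 0 N, (om2 P n : ℝ) := by
    rw [← nsmul_eq_mul]
    exact (Finset.card_nsmul_le_sum B _ _ fun n hn => (Finset.mem_filter.1 hn).2).trans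
      (Finset.sum_le_sum_of_subset_of_nonneg (Finset.filter_subset _ _)
        (fun _ _ _ => Nat.cast_nonneg _))
  have h2 : ∑ n ∈ Ioc 0 N, (om2 P n : ℝ) ≤ N := by
    have h3 : ∑ n ∈ Ioc 0 N, om2 P n = ∑ p ∈ P, N / p ^ 2 := by
      unfold om2
      simp only [Finset.card_filter]
      rw [Finset.sum_comm]
      refine Finset.sum_congr rfl fun p _ => ?_
      rw [← Finset.card_filter, Nat.Ioc_filter_dvd_card_eq_div]
    calc ∑ n ∈ Ioc 0 N, (om2 P n : ℝ) = ((∑ n ∈ Ioc 0 N, om2 P n : ℕ) : ℝ) := by push_cast; rfl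
      _ = ∑ p ∈ P, ((N / p ^ 2 : ℕ) : ℝ) := by rw [h3]; push_cast; rfl
      _ ≤ ∑ p ∈ P, (N : ℝ) * (1 / (p : ℝ) ^ 2) := by
          refine Finset.sum_le_sum fun p _ => ?_
          refine Nat.cast_div_le.trans (le_of_eq ?_)
          push_cast
          rw [mul_one_div]
      _ = N * ∑ p ∈ P, 1 / (p : ℝ) ^ 2 := by rw [Finset.mul_sum]
      _ ≤ N * 1 := mul_le_mul_of_nonneg_left (sq_sum_le hP) (Nat.cast_nonneg _)
      _ = N := mul_one _
  rw [le_div_iff₀ hμ]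
  linarith

end Pool.Agent.H172.EW
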