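import Mathlib
import Pool.Agent.H172.EW.Cover

/-!
# The bad numbers have density zero
-/

set_option autoImplicit false

namespace Pool.Agent.H172.EW

open Finset

theorem sum_biUnion_le' {α β : Type} [DecidableEq β] (s : Finset α) (t : α → Finset β)
    (f : β → ℝ) (hf : ∀ b, 0 ≤ f b) : ∑ x ∈ s.biUnion t, f x ≤ ∑ i ∈ s, ∑ x ∈ t i, f x := by
  classical
  induction s using Finset.induction_on with
  | empty => simp
  | insert a s ha ih =>
    rw [Finset.biUnion_insert, Finset.sum_insert ha]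
    have h1 := Finset.sum_union_inter (s₁ := t a) (s₂ := s.biUnion t) (f := f)
    have h2 : 0 ≤ ∑ x ∈ t a ∩ s.biUnion t, f x := Finset.sum_nonneg fun _ _ => hf _
    linarith

/-- the primes between `2 ^ J0` and `2 ^ (J1 + 1)` -/
def QQ (J0 J1 : ℕ) : Finset ℕ := (Icc J0 J1).biUnion Pj

theorem mem_QQ {J0 J1 q : ℕ} (h : q ∈ QQ J0 J1) : q.Prime ∧ 2 ^ J0 ≤ q := by
  obtain ⟨j, hj, hq⟩ := Finset.mem_biUnion.1 h
  have h1 := (Finset.mem_filter.1 hq).2
  exact ⟨h1.1, (Nat.pow_le_pow_right (by norm_num) (Finset.mem_Icc.1 hj).1).trans h1.2⟩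

theorem sum_inv_j {c : ℝ} (hc : 0 ≤ c) {J0 J1 : ℕ} (h0 : 1 ≤ J0) :
    ∑ j ∈ Icc J0 J1, c / (j : ℝ) ≤ J1 * (c / J0) := by
  have hJ : (0 : ℝ) < J0 := by exact_mod_cast h0
  have h1 : ∀ j ∈ Icc J0 J1, c / (j : ℝ) ≤ c / J0 := by
    intro j hj
    have : (J0 : ℝ) ≤ j := by exact_mod_cast (Finset.mem_Icc.1 hj).1
    exact div_le_div_of_nonneg_left hc hJ this
  refine (Finset.sum_le_card_nsmul _ _ _ h1).trans ?_
  rw [nsmul_eq_mul, Nat.card_Icc]
  refine mul_le_mul_of_nonneg_right ?_ (by positivity)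
  exact_mod_cast (by omega : J1 + 1 - J0 ≤ J1)

theorem QQ_sum {C : ℝ} (hC : BT C) {J0 J1 : ℕ} (h0 : 2 ≤ J0) :
    ∑ q ∈ QQ J0 J1, 1 / (((q - 1 : ℕ) : ℝ)) ≤ J1 * (32 * C / J0) := by
  have hC0 : 0 ≤ C := by linarith [hC.1]
  refine (sum_biUnion_le' _ _ _ fun _ => by positivity).trans ?_
  refine le_trans (Finset.sum_le_sum fun j hj => ?_) (sum_inv_j (c := 32 * C) (by positivity)
    (by omega))
  exact all_sum hC (h0.trans (Finset.mem_Icc.1 hj).1)

theorem QQ_card {C : ℝ} (hC : BT C) {J0 J1 : ℕ} (h0 : 2 ≤ J0) :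
    ((QQ J0 J1).card : ℝ) ≤ 16 * C * 2 ^ (J1 + 1) / J0 := by
  have hC0 : 0 ≤ C := by linarith [hC.1]
  have hJ : (0 : ℝ) < J0 := by
    have : 0 < J0 := by omega
    exact_mod_cast this
  have h1 : ((QQ J0 J1).card : ℝ) ≤ ∑ j ∈ Icc J0 J1, ((Pj j).card : ℝ) := by
    exact_mod_cast (Finset.card_biUnion_le (s := Icc J0 J1) (t := Pj))
  refine h1.trans ?_
  have h2 : ∀ j ∈ Icc J0 J1, ((Pj j).card : ℝ) ≤ 16 * C / J0 * 2 ^ j := by
    intro j hj
    have h3 := (Finset.mem_Icc.1 hj).1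
    refine (all_count hC (h0.trans h3)).trans ?_
    have h4 : (J0 : ℝ) ≤ j := by exact_mod_cast h3
    calc 16 * C * 2 ^ j / (j : ℝ) ≤ 16 * C * 2 ^ j / J0 :=
          div_le_div_of_nonneg_left (by positivity) hJ h4
      _ = _ := by ring
  refine (Finset.sum_le_sum h2).trans ?_
  rw [← Finset.mul_sum]
  have h5 : ∑ j ∈ Icc J0 J1, (2 : ℝ) ^ j ≤ 2 ^ (J1 + 1) := by
    calc ∑ j ∈ Icc J0 J1, (2 : ℝ) ^ j ≤ ∑ j ∈ range (J1 + 1), (2 : ℝ) ^ j := by
          refine Finset.sum_le_sum_of_subset_of_nonneg ?_ (fun _ _ _ => by positivity)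
          intro j hj
          exact Finset.mem_range.2 (by have := (Finset.mem_Icc.1 hj).2; omega)
      _ ≤ 2 ^ (J1 + 1) := by
          rw [geom_sum_eq (by norm_num)]
          norm_num
  calc 16 * C / J0 * ∑ j ∈ Icc J0 J1, (2 : ℝ) ^ j ≤ 16 * C / J0 * 2 ^ (J1 + 1) := by gcongr
    _ = _ := by ring

theorem QQ_bad {C : ℝ} (hC : BT C) {P : Finset ℕ} (hP : ∀ p ∈ P, p.Prime) (hμ : 0 < mu P)
    {J0 J1 : ℕ} (h0 : 2 * ∏ p ∈ P, p ≤ J0) :
    ∑ q ∈ (QQ J0 J1).filter (fun q => (cl P (q % ∏ p ∈ P, p) : ℝ) ≤ 7 / 8 * mu P),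
      1 / (((q - 1 : ℕ) : ℝ)) ≤ 64 / mu P * (J1 * (32 * C / J0)) := by
  classical
  have hC0 : 0 ≤ C := by linarith [hC.1]
  set Q := ∏ p ∈ P, p with hQ
  have hQ0 : 0 < Q := Finset.prod_pos fun p hp => (hP p hp).pos
  have hφ : (0 : ℝ) < Q.totient := by exact_mod_cast Nat.totient_pos.2 hQ0
  set S := (UU Q).filter fun r => (((P.filter fun p => r ≡ 1 [MOD p]).card : ℕ) : ℝ) ≤
    7 / 8 * mu P with hS
  have hScard : (S.card : ℝ) ≤ 64 * (Q.totient : ℝ) / mu P := dev_UU P hP hμ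
  have hsub : (QQ J0 J1).filter (fun q => (cl P (q % Q) : ℝ) ≤ 7 / 8 * mu P) ⊆
      (Icc J0 J1).biUnion fun j => (Pj j).filter fun q => q % Q ∈ S := by
    intro q hq
    obtain ⟨h1, h2⟩ := Finset.mem_filter.1 hq
    obtain ⟨j, hj, h3⟩ := Finset.mem_biUnion.1 h1
    obtain ⟨hqp, hq2⟩ := mem_QQ h1
    refine Finset.mem_biUnion.2 ⟨j, hj, Finset.mem_filter.2 ⟨h3, Finset.mem_filter.2 ⟨?_, h2⟩⟩⟩
    refine Finset.mem_filter.2 ⟨Finset.mem_range.2 (Nat.mod_lt _ hQ0), ?_⟩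
    have h4 : Nat.Coprime Q q := by
      refine Nat.Coprime.prod_left fun p hp => ?_
      refine (Nat.coprime_primes (hP p hp) hqp).2 ?_
      rintro rfl
      have h5 : p ≤ Q := Nat.le_of_dvd hQ0 (Finset.dvd_prod_of_mem _ hp)
      have h6 : J0 < 2 ^ J0 := Nat.lt_two_pow_self
      omega
    have h5 : Nat.gcd (q % Q) Q = Nat.gcd Q q := by rw [Nat.gcd_rec Q q]
    rw [Nat.coprime_comm]
    exact h5.trans h4
  calc ∑ q ∈ (QQ J0 J1).filter (fun q => (cl P (q % Q) : ℝ) ≤ 7 / 8 * mu P),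
      1 / (((q - 1 : ℕ) : ℝ))
      ≤ ∑ q ∈ (Icc J0 J1).biUnion (fun j => (Pj j).filter fun q => q % Q ∈ S),
          1 / (((q - 1 : ℕ) : ℝ)) :=
        Finset.sum_le_sum_of_subset_of_nonneg hsub (fun _ _ _ => by positivity)
    _ ≤ ∑ j ∈ Icc J0 J1, ∑ q ∈ (Pj j).filter (fun q => q % Q ∈ S), 1 / (((q - 1 : ℕ) : ℝ)) :=
        sum_biUnion_le' _ _ _ fun _ => by positivity
    _ ≤ ∑ j ∈ Icc J0 J1, (64 / mu P * (32 * C)) / (j : ℝ) := by
        refine Finset.sum_le_sum fun j hj => ?_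
        have h1 := (Finset.mem_Icc.1 hj).1
        have hj0 : (0 : ℝ) < j := by
          have : 0 < j := by omega
          exact_mod_cast this
        refine (classes_sum hC hQ0 (h0.trans h1) S).trans ?_
        calc (S.card : ℝ) * (32 * C / (Q.totient * j))
            ≤ (64 * (Q.totient : ℝ) / mu P) * (32 * C / (Q.totient * j)) := by gcongr
          _ = _ := by field_simp
    _ ≤ J1 * ((64 / mu P * (32 * C)) / J0) := sum_inv_j (by positivity) (by omega)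
    _ = _ := by ring

open Classical in
theorem card_bound {C : ℝ} (hC : BT C) {P : Finset ℕ} (hP : ∀ p ∈ P, p.Prime) (hμ0 : 0 < mu P)
    {m K N J0 J1 : ℕ} (hμ : 2 * (K : ℝ) ≤ mu P) (h2 : 2 ≤ J0) (h0 : 2 * ∏ p ∈ P, p ≤ J0)
    {B : Finset ℕ} (hB : ∀ n ∈ B, 1 ≤ n ∧ n ≤ N ∧ ∃ q ∈ QQ J0 J1, ∃ d k : ℕ, Wit m K n q d k) :
    (B.card : ℝ) ≤ (72 * N + 128 * (K + 1) * K * N * (J1 * (32 * C / J0)) +
      128 * P.card * (1 + (K + 1) * (QQ J0 J1).card)) / mu P := by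
  have hcov := Finset.card_le_card (cover hP hμ hB)
  set σ : ℝ := J1 * (32 * C / J0) with hσ
  set Qs := QQ J0 J1 with hQs
  set Qb := Qs.filter fun q => (cl P (q % ∏ p ∈ P, p) : ℝ) ≤ 7 / 8 * mu P with hQb
  have hdev : ∀ T : ℕ, (((Ioc 0 T).filter fun t => Dev P t).card : ℝ) ≤
      64 * (T + 2 * P.card) / mu P := by
    intro T
    have := dev_om P hP T hμ0
    convert this
    exact Iff.rfl
  have a1 := hdev N
  have a2 := om2_count hP hμ0 N
  have a3 : ((Qs.biUnion fun q => (range (K + 1)).biUnion fun k =>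
        ((Ioc 0 (N * K / (q - 1))).filter fun t => Dev P t).image fun t => (q - 1) / k * t).card
        : ℝ) ≤ ∑ q ∈ Qs, ((K : ℝ) + 1) * (64 * (N * K * (1 / ((q - 1 : ℕ) : ℝ)) + 2 * P.card) /
          mu P) := by
    have b1 : (Qs.biUnion fun q => (range (K + 1)).biUnion fun k =>
        ((Ioc 0 (N * K / (q - 1))).filter fun t => Dev P t).image fun t => (q - 1) / k * t).card ≤
        ∑ q ∈ Qs, ∑ k ∈ range (K + 1),
          ((Ioc 0 (N * K / (q - 1))).filter fun t => Dev P t).card :=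
      Finset.card_biUnion_le.trans (Finset.sum_le_sum fun q _ =>
        Finset.card_biUnion_le.trans (Finset.sum_le_sum fun k _ => Finset.card_image_le))
    refine le_trans (Nat.cast_le.2 b1) ?_
    push_cast
    refine Finset.sum_le_sum fun q _ => ?_
    rw [Finset.sum_const, Finset.card_range, nsmul_eq_mul]
    push_cast
    refine mul_le_mul_of_nonneg_left ((hdev _).trans ?_) (by positivity)
    have b2 : ((N * K / (q - 1) : ℕ) : ℝ) ≤ N * K * (1 / ((q - 1 : ℕ) : ℝ)) := by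
      refine Nat.cast_div_le.trans (le_of_eq ?_)
      push_cast
      rw [mul_one_div]
    gcongr
  have a4 : ((Qb.biUnion fun q => (range (K + 1)).biUnion fun k =>
        (Ioc 0 (N * K / (q - 1))).image fun t => (q - 1) / k * t).card : ℝ) ≤
        ∑ q ∈ Qb, ((K : ℝ) + 1) * (N * K * (1 / ((q - 1 : ℕ) : ℝ))) := by
    have b1 : (Qb.biUnion fun q => (range (K + 1)).biUnion fun k =>
        (Ioc 0 (N * K / (q - 1))).image fun t => (q - 1) / k * t).card ≤
        ∑ q ∈ Qb, ∑ k ∈ range (K + 1), (Ioc 0 (N * K / (q - 1))).card :=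
      Finset.card_biUnion_le.trans (Finset.sum_le_sum fun q _ =>
        Finset.card_biUnion_le.trans (Finset.sum_le_sum fun k _ => Finset.card_image_le))
    refine le_trans (Nat.cast_le.2 b1) ?_
    push_cast
    refine Finset.sum_le_sum fun q _ => ?_
    rw [Finset.sum_const, Finset.card_range, nsmul_eq_mul, Nat.card_Ioc, Nat.sub_zero]
    push_cast
    refine mul_le_mul_of_nonneg_left ?_ (by positivity)
    refine Nat.cast_div_le.trans (le_of_eq ?_)
    push_cast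
    rw [mul_one_div]
  have s1 := QQ_sum hC (J1 := J1) h2
  have s2 := QQ_bad hC hP hμ0 (J1 := J1) h0
  have a3' : ∑ q ∈ Qs, ((K : ℝ) + 1) * (64 * (N * K * (1 / ((q - 1 : ℕ) : ℝ)) + 2 * P.card) /
          mu P) ≤ (K + 1) * (64 * (N * K * σ + 2 * P.card * Qs.card) / mu P) := by
    rw [← Finset.mul_sum, ← Finset.sum_div, ← Finset.mul_sum, Finset.sum_add_distrib,
      ← Finset.mul_sum, Finset.sum_const, nsmul_eq_mul]
    have : (Qs.card : ℝ) * (2 * P.card) = 2 * P.card * Qs.card := by ring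
    rw [this]
    gcongr
  have a4' : ∑ q ∈ Qb, ((K : ℝ) + 1) * (N * K * (1 / ((q - 1 : ℕ) : ℝ))) ≤
      (K + 1) * (N * K * (64 / mu P * σ)) := by
    rw [← Finset.mul_sum, ← Finset.mul_sum]
    gcongr
  have hcard := hcov.trans ((Finset.card_union_le _ _).trans (Nat.add_le_add
    (Finset.card_union_le _ _) (Finset.card_union_le _ _)))
  have hcard' : (B.card : ℝ) ≤ (64 * (N + 2 * P.card) / mu P + 8 * N / mu P) +
      ((K + 1) * (64 * (N * K * σ + 2 * P.card * Qs.card) / mu P) +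
      (K + 1) * (N * K * (64 / mu P * σ))) := by
    refine le_trans (Nat.cast_le.2 hcard) ?_
    push_cast
    exact add_le_add (add_le_add a1 a2) (add_le_add (a3.trans a3') (a4.trans a4'))
  refine hcard'.trans (le_of_eq ?_)
  field_simp
  ring

end Pool.Agent.H172.EW
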