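import Mathlib
import Pool.Agent.H172.EW.Bound

/-!
# The bad numbers have density zero: the choice of the parameters
-/

set_option autoImplicit false

namespace Pool.Agent.H172.EW

open Finset

theorem exists_P (M : ℝ) : ∃ P : Finset ℕ, (∀ p ∈ P, p.Prime) ∧ M ≤ mu P := by
  by_contra hcon
  push Not at hcon
  apply not_summable_one_div_on_primes
  refine summable_of_sum_le (c := M) (fun n => ?_) fun u => ?_
  · exact Set.indicator_nonneg (fun n _ => by positivity) n
  · have h1 := hcon (u.filter Nat.Prime) (fun p hp => (Finset.mem_filter.1 hp).2)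
    unfold mu at h1
    rw [Finset.sum_filter] at h1
    refine le_trans (le_of_eq ?_) h1.le
    refine Finset.sum_congr rfl fun n _ => ?_
    rw [Set.indicator_apply]
    rfl

open Classical in
/-- **The bad numbers have density zero.** -/
theorem density (m K : ℕ) (hm : 1 ≤ m) (hK : 1 ≤ K) (η : ℝ) (hη : 0 < η) :
    ∃ N0 : ℕ, ∀ N : ℕ, N0 ≤ N →
      (((Ioc 0 N).filter fun n => Bad m K n).card : ℝ) ≤ η * N := by
  obtain ⟨C, hC⟩ := exists_BT
  have hC1 := hC.1
  obtain ⟨R, hR⟩ := exists_nat_gt (4 / η)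
  have hR0' : (0 : ℝ) < R := lt_trans (by positivity) hR
  have hR0 : 0 < R := by exact_mod_cast hR0'
  have hmR : (1 : ℝ) ≤ m := by exact_mod_cast hm
  have hKR : (1 : ℝ) ≤ K := by exact_mod_cast hK
  set c1 : ℝ := 72 + 128 * (K + 1) * K * (512 * m * C) with hc1
  have hc10 : 0 < c1 := by positivity
  obtain ⟨P, hP, hPμ⟩ := exists_P (2 * K + 4 * c1 / η)
  have hμK : 2 * (K : ℝ) ≤ mu P := le_trans (by
    have : 0 ≤ 4 * c1 / η := by positivity
    linarith) hPμ
  have hμ0 : 0 < mu P := by linarith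
  have hμc : 4 * c1 / η ≤ mu P := le_trans (by linarith) hPμ
  set Q := ∏ p ∈ P, p with hQ
  set c2 : ℝ := 4 * (128 * P.card * (1 + (K + 1) * (512 * m * C * K))) / (mu P * η) with hc2
  have hc20 : 0 ≤ c2 := by positivity
  obtain ⟨n2, hn2⟩ := exists_nat_ge c2
  set L0 : ℕ := K + 2 * R + 8 * m * Q + 8 * m + n2 + 1 with hL0
  refine ⟨2 ^ L0, fun N hN => ?_⟩
  have hN0 : 0 < N := lt_of_lt_of_le (by positivity) hN
  have hNR : (0 : ℝ) < N := by exact_mod_cast hN0
  set L := Nat.log 2 N with hL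
  have hLL : L0 ≤ L := by
    rw [hL]
    calc L0 = Nat.log 2 (2 ^ L0) := by rw [Nat.log_pow (by norm_num)]
      _ ≤ Nat.log 2 N := Nat.log_mono_right hN
  have hL2 : 2 ^ L ≤ N := Nat.pow_log_le_self 2 hN0.ne'
  have hL3 : N < 2 ^ (L + 1) := Nat.lt_pow_succ_log_self (by norm_num) N
  set J0 := L / (4 * m) with hJ0
  set J1 := Nat.log 2 (K * N + 1) with hJ1
  have h4m : 0 < 4 * m := by omega
  have hJ0a : 2 * Q ≤ J0 := by
    rw [hJ0, Nat.le_div_iff_mul_le h4m]
    calc 2 * Q * (4 * m) = 8 * m * Q := by ring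
      _ ≤ L := by omega
  have hJ0b : 2 ≤ J0 := by
    rw [hJ0, Nat.le_div_iff_mul_le h4m]
    omega
  have hJ1a : 2 ^ J1 ≤ K * N + 1 := Nat.pow_log_le_self 2 (by omega)
  have hJ1b : J1 ≤ 2 * L := by
    have h1 : 2 ^ J1 < 2 ^ (K + L + 1) := by
      calc 2 ^ J1 ≤ K * N + 1 := hJ1a
        _ ≤ (K + 1) * N := by rw [add_mul, one_mul]; omega
        _ ≤ 2 ^ K * N := Nat.mul_le_mul_right _ (Nat.lt_two_pow_self (n := K))
        _ < 2 ^ K * 2 ^ (L + 1) := Nat.mul_lt_mul_of_pos_left hL3 (by positivity)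
        _ = 2 ^ (K + L + 1) := by rw [← pow_add, add_assoc]
    have h2 := (Nat.pow_lt_pow_iff_right (by norm_num : 1 < 2)).1 h1
    omega
  have hLR : (0 : ℝ) < L := by
    have : 0 < L := by omega
    exact_mod_cast this
  have hJ0R : (0 : ℝ) < J0 := by
    have : 0 < J0 := by omega
    exact_mod_cast this
  -- `1 / J0 ≤ 8 m / L`
  have hinv : (L : ℝ) ≤ 8 * m * J0 := by
    have h1 : L < 4 * m * (J0 + 1) := by
      have := Nat.lt_div_mul_add (a := L) h4m
      rw [← hJ0] at this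
      calc L < J0 * (4 * m) + 4 * m := this
        _ = 4 * m * (J0 + 1) := by ring
    have h2 : 4 * m * (J0 + 1) ≤ 8 * m * J0 := by nlinarith
    exact_mod_cast (h1.le.trans h2)
  have hinv2 : 1 / (J0 : ℝ) ≤ 8 * m / L := by
    rw [div_le_div_iff₀ hJ0R hLR]
    linarith
  have hσ : (J1 : ℝ) * (32 * C / J0) ≤ 512 * m * C := by
    have h1 : (J1 : ℝ) ≤ 2 * L := by exact_mod_cast hJ1b
    calc (J1 : ℝ) * (32 * C / J0) = J1 * (32 * C) * (1 / J0) := by ring
      _ ≤ (2 * L) * (32 * C) * (8 * m / L) := by gcongr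
      _ = 512 * m * C := by field_simp; ring
  have hcardQ : ((QQ J0 J1).card : ℝ) ≤ 512 * m * C * K * (N / L) := by
    refine (QQ_card hC hJ0b).trans ?_
    have h1 : (2 : ℝ) ^ (J1 + 1) ≤ 4 * (K * N) := by
      have h2 : 2 ^ (J1 + 1) ≤ 4 * (K * N) := by
        rw [pow_succ]
        have : 1 ≤ K * N := Nat.mul_pos hK hN0
        omega
      exact_mod_cast h2
    calc 16 * C * 2 ^ (J1 + 1) / (J0 : ℝ) = 16 * C * 2 ^ (J1 + 1) * (1 / J0) := by ring
      _ ≤ 16 * C * (4 * (K * N)) * (8 * m / L) := by gcongr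
      _ = 512 * m * C * K * (N / L) := by field_simp; ring
  -- the set
  set B := (Ioc 0 N).filter fun n => N < R * n ∧ Bad m K n with hB
  have hBw : ∀ n ∈ B, 1 ≤ n ∧ n ≤ N ∧ ∃ q ∈ QQ J0 J1, ∃ d k : ℕ, Wit m K n q d k := by
    intro n hn
    obtain ⟨hn1, hn2, q, d, k, hw⟩ := Finset.mem_filter.1 hn
    obtain ⟨hn3, hn4⟩ := Finset.mem_Ioc.1 hn1
    refine ⟨hn3, hn4, q, ?_, d, k, hw⟩
    obtain ⟨hq, hnq, hd, hk, hqk⟩ := hw
    have hq0 : q ≠ 0 := hq.ne_zero
    set j := Nat.log 2 q with hj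
    have hj1 : 2 ^ j ≤ q := Nat.pow_log_le_self 2 hq0
    have hj2 : q < 2 ^ (j + 1) := Nat.lt_pow_succ_log_self (by norm_num) q
    have hj0 : 1 ≤ j := by
      rcases Nat.eq_zero_or_pos j with h | h
      · rw [h] at hj2
        have := hq.two_le
        omega
      · exact h
    refine Finset.mem_biUnion.2 ⟨j, Finset.mem_Icc.2 ⟨?_, ?_⟩, ?_⟩
    · have h1 : 2 ^ L < 2 ^ (R + (j + 1) * m) := by
        calc 2 ^ L ≤ N := hL2
          _ < R * n := hn2
          _ ≤ R * q ^ m := Nat.mul_le_mul_left _ hnq.le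
          _ ≤ 2 ^ R * (2 ^ (j + 1)) ^ m :=
            Nat.mul_le_mul (Nat.lt_two_pow_self).le (Nat.pow_le_pow_left hj2.le m)
          _ = 2 ^ (R + (j + 1) * m) := by rw [← pow_mul, ← pow_add]
      have h2 := (Nat.pow_lt_pow_iff_right (by norm_num : 1 < 2)).1 h1
      rw [hJ0]
      refine Nat.div_le_of_le_mul ?_
      have h3 : 2 * R ≤ L := by omega
      have h4 : L ≤ 2 * ((j + 1) * m) := by omega
      calc L ≤ 2 * ((j + 1) * m) := h4
        _ ≤ 2 * ((2 * j) * m) := by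
          refine Nat.mul_le_mul_left _ (Nat.mul_le_mul_right _ (by omega))
        _ = 4 * m * j := by ring
    · refine Nat.log_mono_right ?_
      have hdn : d ≤ n := Nat.le_of_dvd hn3 hd
      rw [hqk]
      exact Nat.succ_le_succ (Nat.mul_le_mul hk (hdn.trans hn4))
    · exact Finset.mem_filter.2 ⟨Finset.mem_range.2 hj2, hq, hj1⟩
  have hmain := card_bound hC hP hμ0 hμK hJ0b hJ0a hBw
  have hBcard : (B.card : ℝ) ≤ η / 2 * N := by
    have e1 : 128 * ((K : ℝ) + 1) * K * N * (J1 * (32 * C / J0)) ≤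
        128 * ((K : ℝ) + 1) * K * N * (512 * m * C) := by gcongr
    have e2 : (1 : ℝ) + (K + 1) * (QQ J0 J1).card ≤ (1 + (K + 1) * (512 * m * C * K)) * (N / L) := by
      have e3 : (1 : ℝ) ≤ N / L := by
        rw [le_div_iff₀ hLR, one_mul]
        have : L ≤ N := (Nat.lt_two_pow_self (n := L)).le.trans hL2
        exact_mod_cast this
      calc (1 : ℝ) + (K + 1) * (QQ J0 J1).card ≤ N / L + (K + 1) * (512 * m * C * K * (N / L)) := by
            gcongr
        _ = _ := by ring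
    have e4 : 128 * (P.card : ℝ) * (1 + (K + 1) * (QQ J0 J1).card) ≤
        128 * P.card * ((1 + (K + 1) * (512 * m * C * K)) * (N / L)) := by gcongr
    have e5 : 128 * (P.card : ℝ) * ((1 + (K + 1) * (512 * m * C * K)) * (N / L)) ≤
        mu P * η / 4 * N := by
      have h1 : c2 ≤ L := hn2.trans (by exact_mod_cast (by omega : n2 ≤ L))
      rw [hc2, div_le_iff₀ (by positivity)] at h1
      calc 128 * (P.card : ℝ) * ((1 + (K + 1) * (512 * m * C * K)) * (N / L)) =
          (4 * (128 * P.card * (1 + (K + 1) * (512 * m * C * K)))) * (N / (4 * L)) := by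
            field_simp
        _ ≤ (L * (mu P * η)) * (N / (4 * L)) := by gcongr
        _ = mu P * η / 4 * N := by field_simp
    have e6 : c1 * N ≤ mu P * η / 4 * N := by
      rw [div_le_iff₀ hη] at hμc
      gcongr
      linarith
    refine hmain.trans ?_
    rw [div_le_iff₀ hμ0]
    have e7 : c1 * N = 72 * N + 128 * ((K : ℝ) + 1) * K * N * (512 * m * C) := by
      rw [hc1]; ring
    linarith
  have hsmall : (((Ioc 0 N).filter fun n => R * n ≤ N).card : ℝ) ≤ η / 4 * N := by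
    have h1 : ((Ioc 0 N).filter fun n => R * n ≤ N) ⊆ Ioc 0 (N / R) := by
      intro n hn
      obtain ⟨h1, h2⟩ := Finset.mem_filter.1 hn
      refine Finset.mem_Ioc.2 ⟨(Finset.mem_Ioc.1 h1).1, ?_⟩
      rw [Nat.le_div_iff_mul_le hR0, mul_comm]
      exact h2
    have h2 := Finset.card_le_card h1
    rw [Nat.card_Ioc, Nat.sub_zero] at h2
    calc (((Ioc 0 N).filter fun n => R * n ≤ N).card : ℝ) ≤ ((N / R : ℕ) : ℝ) := by
          exact_mod_cast h2
      _ ≤ (N : ℝ) / R := Nat.cast_div_le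
      _ ≤ η / 4 * N := by
          rw [div_le_iff₀ hR0']
          rw [div_lt_iff₀ hη] at hR
          nlinarith
  have hsub : ((Ioc 0 N).filter fun n => Bad m K n) ⊆
      B ∪ (Ioc 0 N).filter fun n => R * n ≤ N := by
    intro n hn
    obtain ⟨h1, h2⟩ := Finset.mem_filter.1 hn
    rcases Nat.lt_or_ge N (R * n) with h | h
    · exact Finset.mem_union_left _ (Finset.mem_filter.2 ⟨h1, h, h2⟩)
    · exact Finset.mem_union_right _ (Finset.mem_filter.2 ⟨h1, h⟩)
  have hfin := (Finset.card_le_card hsub).trans (Finset.card_union_le _ _)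
  have hfin' : (((Ioc 0 N).filter fun n => Bad m K n).card : ℝ) ≤
      B.card + (((Ioc 0 N).filter fun n => R * n ≤ N).card : ℝ) := by exact_mod_cast hfin
  have : 0 ≤ η * N := by positivity
  linarith

end Pool.Agent.H172.EW
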