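import Mathlib

/-!
# A diagonal set of density one
-/

set_option autoImplicit false

namespace Pool.Agent.H172.EW

open Finset Filter Topology

open Classical in
theorem diag (B : ℕ → Set ℕ) (hB : ∀ i, ∀ η : ℝ, 0 < η → ∃ N0 : ℕ, ∀ N : ℕ, N0 ≤ N →
    (((Ioc 0 N).filter fun n => n ∈ B i).card : ℝ) ≤ η * N) :
    ∃ T : Set ℕ, (∀ η : ℝ, 0 < η → ∃ N0 : ℕ, ∀ N : ℕ, N0 ≤ N →
      (((Ioc 0 N).filter fun n => n ∈ T).card : ℝ) ≤ η * N) ∧
      ∀ i, ∃ M : ℕ, ∀ n : ℕ, M ≤ n → n ∉ T → n ∉ B i := by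
  have h1 : ∀ i : ℕ, ∃ M : ℕ, ∀ l ∈ range (i + 1), ∀ N : ℕ, M ≤ N →
      (((Ioc 0 N).filter fun n => n ∈ B l).card : ℝ) ≤ (1 / ((i : ℝ) + 1) ^ 2) * N := by
    intro i
    have h2 : ∀ l, ∃ N0 : ℕ, ∀ N : ℕ, N0 ≤ N →
      (((Ioc 0 N).filter fun n => n ∈ B l).card : ℝ) ≤ (1 / ((i : ℝ) + 1) ^ 2) * N :=
      fun l => hB l _ (by positivity)
    choose N0 hN0 using h2
    refine ⟨∑ l ∈ range (i + 1), N0 l, fun l hl N hN => hN0 l N (le_trans ?_ hN)⟩
    exact Finset.single_le_sum (f := N0) (fun _ _ => Nat.zero_le _) hl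
  choose M hM using h1
  obtain ⟨M', hM'⟩ : ∃ M' : ℕ → ℕ, M' = fun i => i + ∑ l ∈ range (i + 1), M l := ⟨_, rfl⟩
  have hmono : Monotone M' := by
    intro i j hij
    rw [hM']
    refine Nat.add_le_add hij ?_
    exact Finset.sum_le_sum_of_subset (Finset.range_mono (by omega))
  have hMi : ∀ i, i ≤ M' i ∧ M i ≤ M' i := by
    intro i
    rw [hM']
    refine ⟨Nat.le_add_right _ _, le_trans ?_ (Nat.le_add_left _ _)⟩
    exact Finset.single_le_sum (f := M) (fun _ _ => Nat.zero_le _) (Finset.self_mem_range_succ i)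
  refine ⟨{n | ∃ i, M' i ≤ n ∧ n ∈ B i}, ?_, fun i => ⟨M' i, fun n hn hT hBn => hT ⟨i, hn, hBn⟩⟩⟩
  intro η hη
  obtain ⟨I0, hI0⟩ := exists_nat_gt (1 / η)
  refine ⟨M' I0, fun N hN => ?_⟩
  set I := Nat.findGreatest (fun i => M' i ≤ N) N with hI
  have hI0N : I0 ≤ N := (hMi I0).1.trans hN
  have hII : I0 ≤ I := Nat.le_findGreatest hI0N hN
  have hIN : M' I ≤ N := Nat.findGreatest_spec (P := fun i => M' i ≤ N) hI0N hN
  have hsub : ((Ioc 0 N).filter fun n => n ∈ {n | ∃ i, M' i ≤ n ∧ n ∈ B i}) ⊆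
      (range (I + 1)).biUnion fun l => (Ioc 0 N).filter fun n => n ∈ B l := by
    intro n hn
    obtain ⟨h1, i, h2, h3⟩ := Finset.mem_filter.1 hn
    have h4 := (Finset.mem_Ioc.1 h1).2
    have h5 : i ≤ I := Nat.le_findGreatest ((hMi i).1.trans (h2.trans h4)) (h2.trans h4)
    exact Finset.mem_biUnion.2 ⟨i, Finset.mem_range.2 (by omega), Finset.mem_filter.2 ⟨h1, h3⟩⟩
  have h2 := (Finset.card_le_card hsub).trans Finset.card_biUnion_le
  have hI1 : (0 : ℝ) < (I : ℝ) + 1 := by positivity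
  calc (((Ioc 0 N).filter fun n => n ∈ {n | ∃ i, M' i ≤ n ∧ n ∈ B i}).card : ℝ)
      ≤ ∑ l ∈ range (I + 1), (((Ioc 0 N).filter fun n => n ∈ B l).card : ℝ) := by
        exact_mod_cast h2
    _ ≤ ∑ l ∈ range (I + 1), (1 / ((I : ℝ) + 1) ^ 2) * N :=
        Finset.sum_le_sum fun l hl => hM I l hl N ((hMi I).2.trans hIN)
    _ = (1 / ((I : ℝ) + 1)) * N := by
        rw [Finset.sum_const, Finset.card_range, nsmul_eq_mul]
        push_cast
        field_simp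
    _ ≤ η * N := by
        refine mul_le_mul_of_nonneg_right ?_ (Nat.cast_nonneg _)
        have h3 : (I0 : ℝ) ≤ I := by exact_mod_cast hII
        rw [div_le_iff₀ hI1]
        rw [div_lt_iff₀ hη] at hI0
        nlinarith

end Pool.Agent.H172.EW
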