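import Mathlib
import Pool.Prelude.Def_F_cef2bd1b
import Pool.Graph.R_seed8.H17HN.Tiling
import Pool.Graph.R_seed8.Y165.HN.Key
import Pool.Agent.H172.EW.Dens
import Pool.Agent.H172.EW.Diag

/-!
# The cutoff for the numbers which are not bad
-/

set_option autoImplicit false

namespace Pool.Agent.H172.EW

open Finset N0a8789b9 Pool.Agent.H17HN Pool.Agent.Y165.HN

/-- the structure of the common prime factors (the argument of the library lemma `key` with an
arbitrary bound `A` in place of the largest prime) -/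
theorem key' (ε : ℝ) (hε : 0 < ε) (hε1 : ε ≤ 1) : ∃ (K : ℕ) (N : ℕ), 1 ≤ K ∧ ∀ n : ℕ, N ≤ n →
    ∀ A : ℕ, (n : ℝ) ^ ε ≤ A → gg n A ≠ 1 →
    ∃ q d k : ℕ, q.Prime ∧ A < q ∧ d ∣ n ∧ k ≤ K ∧ q = k * d + 1 := by
  obtain ⟨c, hc, D0, hS⟩ := Pool.Agent.H471R4.BW.smo (ε / 2) (by positivity) (by linarith)
  obtain ⟨N1, hN1⟩ := large ε hε (max D0 3)
  obtain ⟨N2, hN2⟩ := exists_nat_gt (1 / c)
  obtain ⟨K, hK⟩ := exists_nat_ge (1 / c)
  refine ⟨K + 1, max (max N1 (N2 + 1)) (max D0 1), Nat.succ_pos K, fun n hn A hP hne => ?_⟩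
  have hn1 : N1 ≤ n := (le_max_left _ _).trans ((le_max_left _ _).trans hn)
  have hn2 : N2 + 1 ≤ n := (le_max_right _ _).trans ((le_max_left _ _).trans hn)
  have hn3 : D0 ≤ n := (le_max_left _ _).trans ((le_max_right _ _).trans hn)
  have hn4 : 1 ≤ n := (le_max_right _ _).trans ((le_max_right _ _).trans hn)
  have hbig := hN1 n hn1
  have hPD : (D0 : ℝ) ≤ A := ((le_max_left _ _).trans hbig).trans hP
  have hP3 : (3 : ℝ) ≤ A := ((le_max_right _ _).trans hbig).trans hP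
  have hP3' : 3 ≤ A := by exact_mod_cast hP3
  have hPD' : D0 ≤ A := by exact_mod_cast hPD
  obtain ⟨q, hq, hPq, hall⟩ := exists_prime_of_gg_ne_one (by omega) hn4 hne
  haveI : Fact q.Prime := ⟨hq⟩
  set d := Nat.gcd n (q - 1) with hd
  have hq1 : 0 < q - 1 := by have := hq.one_lt; omega
  have hd1 : 1 ≤ d := Nat.gcd_pos_of_pos_left _ hn4
  have hdn : d ∣ n := Nat.gcd_dvd_left _ _
  have hdq : d ∣ q - 1 := Nat.gcd_dvd_right _ _
  have hdle : d ≤ n := Nat.le_of_dvd hn4 hdn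
  have hpow : ∀ z : ZMod q, z ≠ 0 → z ^ n = 1 → z ^ d = 1 := by
    intro z hz hzn
    have h1 : z ^ (q - 1) = 1 := ZMod.pow_card_sub_one_eq_one hz
    rw [hd]
    exact pow_gcd_eq_one.mpr ⟨hzn, h1⟩
  have hne0 : ∀ a : ℕ, ((a : ℕ) : ZMod q) ^ n = 1 → ((a : ℕ) : ZMod q) ≠ 0 := by
    intro a ha h0
    rw [h0, zero_pow (by omega)] at ha
    exact zero_ne_one ha
  set D := min q (n ^ 2) with hD
  have hDD0 : D0 ≤ D := by
    rw [hD]
    refine le_min (by omega) ?_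
    nlinarith
  obtain ⟨S, hS1, hS2⟩ := hS D hDD0
  have hDn : ((D : ℕ) : ℝ) ^ (ε / 2) ≤ (n : ℝ) ^ ε := by
    have h1 : ((D : ℕ) : ℝ) ≤ (n : ℝ) ^ (2 : ℝ) := by
      have : D ≤ n ^ 2 := min_le_right _ _
      have h2 : ((D : ℕ) : ℝ) ≤ ((n ^ 2 : ℕ) : ℝ) := by exact_mod_cast this
      rw [Real.rpow_two]
      push_cast at h2
      exact h2
    calc ((D : ℕ) : ℝ) ^ (ε / 2) ≤ ((n : ℝ) ^ (2 : ℝ)) ^ (ε / 2) :=
          Real.rpow_le_rpow (Nat.cast_nonneg _) h1 (by positivity)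
      _ = (n : ℝ) ^ ε := by
          rw [← Real.rpow_mul (Nat.cast_nonneg _)]
          congr 1
          ring
  have hScard : S.card ≤ d := by
    refine card_roots hq hd1 S fun s hs => ?_
    obtain ⟨h1, h2, h3⟩ := hS1 s hs
    refine ⟨lt_of_lt_of_le h2 (min_le_left _ _), ?_⟩
    have h4 : ((s : ℕ) : ZMod q) ^ n = 1 := by
      refine smooth_root hall s h1 fun p hp hps => ?_
      have h5 : (p : ℝ) ≤ A := ((h3 p hp hps).trans hDn).trans hP
      exact_mod_cast h5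
    exact hpow _ (hne0 s h4) h4
  have hcD : c * D ≤ d := hS2.trans (by exact_mod_cast hScard)
  have hn0 : (0 : ℝ) < n := by exact_mod_cast hn4
  have hcn : 1 < c * n := by
    have h1 : (N2 : ℝ) < n := by exact_mod_cast (by omega : N2 < n)
    have h2 := hN2.trans h1
    rw [div_lt_iff₀ hc] at h2
    linarith
  have hqn2 : q < n ^ 2 := by
    by_contra hcon
    rw [not_lt] at hcon
    have h1 : D = n ^ 2 := min_eq_right hcon
    rw [h1] at hcD
    push_cast at hcD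
    have h2 : (d : ℝ) ≤ n := by exact_mod_cast hdle
    nlinarith
  have hDq : D = q := min_eq_left hqn2.le
  rw [hDq] at hcD
  have hKc : 1 ≤ c * K := by
    rw [div_le_iff₀ hc] at hK
    linarith
  have hqK : q ≤ K * d := by
    have h1 : (q : ℝ) ≤ K * d := by
      have hq0 : (0 : ℝ) ≤ q := Nat.cast_nonneg _
      have hK0 : (0 : ℝ) ≤ K := Nat.cast_nonneg _
      calc (q : ℝ) ≤ (c * K) * q := by nlinarith
        _ = K * (c * q) := by ring
        _ ≤ K * d := by gcongr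
    exact_mod_cast h1
  obtain ⟨k, hk⟩ := hdq
  refine ⟨q, d, k, hq, hPq, hdn, ?_, ?_⟩
  · have h1 : d * k < d * (K + 1) := by
      have : q - 1 < K * d + 1 := by omega
      rw [hk] at this
      nlinarith
    have := Nat.lt_of_mul_lt_mul_left h1
    omega
  · rw [mul_comm k d, ← hk]; omega

theorem adm_large {n A k : ℕ} (hn : 1 ≤ n) (hA : 2 ≤ A) (hg : gg n A = 1)
    (hk : (2 * A) ^ n ≤ k) : Admissible n k := by
  have hgcd : Nat.setGcd (gens n A) = 1 := by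
    apply Nat.dvd_one.mp
    rw [← hg]
    unfold gg
    rw [Finset.dvd_gcd_iff]
    intro a ha
    rw [Finset.mem_Icc] at ha
    exact Nat.setGcd_dvd_of_mem ⟨a, ha.1, ha.2, rfl⟩
  have h2n : 2 ≤ 2 ^ n := by
    calc 2 = 2 ^ 1 := by norm_num
      _ ≤ 2 ^ n := Nat.pow_le_pow_right (by norm_num) hn
  have hAn : 1 ≤ A ^ n := Nat.one_le_pow _ _ (by omega)
  have hmem : ∀ N, (2 ^ n - 1) * (A ^ n - 1) ≤ N → N ∈ AddSubmonoid.closure (gens n A) := by
    intro N hN
    refine frob_bound hgcd (m := 2 ^ n - 1) (M := A ^ n - 1) (by omega) ⟨2, le_refl _, hA, rfl⟩ ?_ N hN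
    rintro s ⟨a, _, haA, rfl⟩
    exact Nat.sub_le_sub_right (Nat.pow_le_pow_left haA n) 1
  have h1 : (2 ^ n - 1) * (A ^ n - 1) + 1 ≤ (2 * A) ^ n := by
    rw [mul_pow]
    obtain ⟨u, hu⟩ : ∃ u, 2 ^ n = u + 1 := ⟨2 ^ n - 1, by omega⟩
    obtain ⟨w, hw⟩ : ∃ w, A ^ n = w + 1 := ⟨A ^ n - 1, by omega⟩
    rw [hu, hw]
    simp only [Nat.add_sub_cancel]
    nlinarith
  have h2 := admissible_of_mem (k - 1) (hmem (k - 1) (by omega)) 0 (by simpa using admissible_one n)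
  have h3 : 0 + 1 + (k - 1) = k := by omega
  rwa [h3] at h2

/-- the least positive integer `c` such that all `k ≥ c` are admissible -/
noncomputable def cutoff (n : ℕ) : ℕ := sInf {c : ℕ | 1 ≤ c ∧ ∀ k, c ≤ k → Admissible n k}

theorem log_cutoff (m : ℕ) (hm : 1 ≤ m) : ∃ K N : ℕ, 1 ≤ K ∧ ∀ n : ℕ, N ≤ n → ¬ Bad m K n →
    Real.log (cutoff n) ≤ 2 / m * (n * Real.log n) := by
  have hmR : (1 : ℝ) ≤ m := by exact_mod_cast hm
  have hm0 : (0 : ℝ) < m := by linarith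
  obtain ⟨K, N, hK, hkey⟩ := key' (1 / m) (by positivity) (by rw [div_le_one hm0]; exact hmR)
  obtain ⟨N3, hN3⟩ := large (1 / m) (by positivity) 4
  refine ⟨K, max (max N N3) 1, hK, fun n hn hbad => ?_⟩
  have hn1 : N ≤ n := (le_max_left _ _).trans ((le_max_left _ _).trans hn)
  have hn2 : N3 ≤ n := (le_max_right _ _).trans ((le_max_left _ _).trans hn)
  have hn3 : 1 ≤ n := (le_max_right _ _).trans hn
  have hn0 : (0 : ℝ) < n := by exact_mod_cast hn3
  set x : ℝ := (n : ℝ) ^ ((1 : ℝ) / m) with hx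
  have hx4 : 4 ≤ x := hN3 n hn2
  have hxm : x ^ m = n := by
    rw [hx, ← Real.rpow_natCast, ← Real.rpow_mul hn0.le, one_div_mul_cancel hm0.ne', Real.rpow_one]
  set A : ℕ := ⌈x⌉₊ with hA
  have hxA : x ≤ A := Nat.le_ceil x
  have hA2 : 2 ≤ A := by
    have : (2 : ℝ) ≤ A := by linarith
    exact_mod_cast this
  have hAx : (A : ℝ) ≤ x + 1 := (Nat.ceil_lt_add_one (by linarith)).le
  have hg : gg n A = 1 := by
    by_contra hne
    obtain ⟨q, d, k, hq, hAq, hd, hk, hqk⟩ := hkey n hn1 A hxA hne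
    refine hbad ⟨q, d, k, hq, ?_, hd, hk, hqk⟩
    have h1 : (n : ℝ) < (q : ℝ) ^ m := by
      rw [← hxm]
      refine pow_lt_pow_left₀ (lt_of_le_of_lt hxA ?_) (by linarith) (by omega)
      exact_mod_cast hAq
    exact_mod_cast h1
  have hc : cutoff n ≤ (2 * A) ^ n := by
    refine Nat.sInf_le ⟨Nat.one_le_pow _ _ (by omega), fun k hk => adm_large hn3 hA2 hg hk⟩
  have hlogn : 0 ≤ Real.log n := Real.log_natCast_nonneg n
  rcases Nat.eq_zero_or_pos (cutoff n) with h0 | h0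
  · rw [h0]
    simp only [Nat.cast_zero, Real.log_zero]
    positivity
  have h0' : (0 : ℝ) < cutoff n := by exact_mod_cast h0
  have h1 : (cutoff n : ℝ) ≤ (2 * (A : ℝ)) ^ n := by exact_mod_cast hc
  have hlogx : Real.log x = 1 / m * Real.log n := by rw [hx, Real.log_rpow hn0]
  calc Real.log (cutoff n) ≤ Real.log ((2 * (A : ℝ)) ^ n) := Real.log_le_log h0' h1
    _ = n * Real.log (2 * A) := by rw [Real.log_pow]
    _ ≤ n * Real.log (x ^ 2) := by
        refine mul_le_mul_of_nonneg_left (Real.log_le_log (by positivity) ?_) hn0.le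
        nlinarith
    _ = 2 / m * (n * Real.log n) := by
        rw [Real.log_pow, hlogx]; push_cast; ring

end Pool.Agent.H172.EW
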