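import Mathlib
import Pool.Prelude.Def_F_cef2bd1b
import Pool.Graph.R_seed8.H17HN.Tiling
import Pool.Graph.R_seed8.Y165.HN.Key
import Pool.Graph.R_seed8.Y165.HN.Burg
import Pool.Agent.H172.EW.Cut

/-!
# The cutoff for the numbers `n` such that all primes `p` with `p - 1 ∣ n` are small
-/

set_option autoImplicit false

namespace Pool.Agent.H172.EW

open Finset N0a8789b9 Pool.Agent.H17HN Pool.Agent.Y165.HN

/-- the structure of the common prime factors for a bound `A ≥ PP n`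
(the argument of the library lemma `key`) -/
theorem keyA (ε : ℝ) (hε : 0 < ε) (hε1 : ε ≤ 1) : ∃ (K : ℕ) (N : ℕ), 1 ≤ K ∧ ∀ n : ℕ, N ≤ n →
    ∀ A : ℕ, (n : ℝ) ^ ε ≤ A → PP n ≤ A → gg n A ≠ 1 →
    ∃ q : ℕ, q.Prime ∧ A < q ∧ q ≤ K * n ∧ (∃ d k : ℕ, d ∣ n ∧ k ≤ K ∧ q = k * d + 1) ∧
      ∃ χ : DirichletCharacter ℂ q, χ ≠ 1 ∧ ∀ l : ℕ, l.Prime → l ≤ A → χ (l : ZMod q) = 1 := by
  obtain ⟨c, hc, D0, hS⟩ := Pool.Agent.H471R4.BW.smo (ε / 2) (by positivity) (by linarith)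
  obtain ⟨N1, hN1⟩ := large ε hε (max D0 3)
  obtain ⟨N2, hN2⟩ := exists_nat_gt (1 / c)
  obtain ⟨K, hK⟩ := exists_nat_ge (1 / c)
  refine ⟨K + 1, max (max N1 (N2 + 1)) (max D0 1), Nat.succ_pos K, fun n hn A hP hPPA hne => ?_⟩
  have hn1 : N1 ≤ n := (le_max_left _ _).trans ((le_max_left _ _).trans hn)
  have hn2 : N2 + 1 ≤ n := (le_max_right _ _).trans ((le_max_left _ _).trans hn)
  have hn3 : D0 ≤ n := (le_max_left _ _).trans ((le_max_right _ _).trans hn)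
  have hn4 : 1 ≤ n := (le_max_right _ _).trans ((le_max_right _ _).trans hn)
  have hbig := hN1 n hn1
  have hPD : (D0 : ℝ) ≤ A := ((le_max_left _ _).trans hbig).trans hP
  have hP3 : (3 : ℝ) ≤ A := ((le_max_right _ _).trans hbig).trans hP
  have hP3' : 3 ≤ A := by exact_mod_cast hP3
  have hPD' : D0 ≤ A := by exact_mod_cast hPD
  obtain ⟨q, hq, hPq, hall⟩ := exists_prime_of_gg_ne_one (by omega) hn4 hne
  haveI : Fact q.Prime := ⟨hq⟩
  set d := Nat.gcd n (q - 1) with hd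
  have hq1 : 0 < q - 1 := by have := hq.one_lt; omega
  have hd1 : 1 ≤ d := Nat.gcd_pos_of_pos_left _ hn4
  have hdn : d ∣ n := Nat.gcd_dvd_left _ _
  have hdq : d ∣ q - 1 := Nat.gcd_dvd_right _ _
  have hdle : d ≤ n := Nat.le_of_dvd hn4 hdn
  have hdlt : d < q - 1 := by
    rcases lt_or_eq_of_le (Nat.le_of_dvd hq1 hdq) with h | h
    · exact h
    · exfalso
      have h2 : (q - 1) ∣ n := by rw [← h]; exact hdn
      have := le_PP hn4 hq h2
      omega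
  have hpow : ∀ z : ZMod q, z ≠ 0 → z ^ n = 1 → z ^ d = 1 := by
    intro z hz hzn
    have h1 : z ^ (q - 1) = 1 := ZMod.pow_card_sub_one_eq_one hz
    rw [hd]
    exact pow_gcd_eq_one.mpr ⟨hzn, h1⟩
  have hne0 : ∀ a : ℕ, ((a : ℕ) : ZMod q) ^ n = 1 → ((a : ℕ) : ZMod q) ≠ 0 := by
    intro a ha h0
    rw [h0, zero_pow (by omega)] at ha
    exact zero_ne_one ha
  set D := min q (n ^ 2) with hD
  have hDD0 : D0 ≤ D := by
    rw [hD]
    refine le_min (by omega) ?_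
    nlinarith
  obtain ⟨S, hS1, hS2⟩ := hS D hDD0
  have hDn : ((D : ℕ) : ℝ) ^ (ε / 2) ≤ (n : ℝ) ^ ε := by
    have h1 : ((D : ℕ) : ℝ) ≤ (n : ℝ) ^ (2 : ℝ) := by
      have : D ≤ n ^ 2 := min_le_right _ _
      have h2 : ((D : ℕ) : ℝ) ≤ ((n ^ 2 : ℕ) : ℝ) := by exact_mod_cast this
      rw [Real.rpow_two]
      push_cast at h2
      exact h2
    calc ((D : ℕ) : ℝ) ^ (ε / 2) ≤ ((n : ℝ) ^ (2 : ℝ)) ^ (ε / 2) :=
          Real.rpow_le_rpow (Nat.cast_nonneg _) h1 (by positivity)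
      _ = (n : ℝ) ^ ε := by
          rw [← Real.rpow_mul (Nat.cast_nonneg _)]
          congr 1
          ring
  have hScard : S.card ≤ d := by
    refine card_roots hq hd1 S fun s hs => ?_
    obtain ⟨h1, h2, h3⟩ := hS1 s hs
    refine ⟨lt_of_lt_of_le h2 (min_le_left _ _), ?_⟩
    have h4 : ((s : ℕ) : ZMod q) ^ n = 1 := by
      refine smooth_root hall s h1 fun p hp hps => ?_
      have h5 : (p : ℝ) ≤ A := ((h3 p hp hps).trans hDn).trans hP
      exact_mod_cast h5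
    exact hpow _ (hne0 s h4) h4
  have hcD : c * D ≤ d := hS2.trans (by exact_mod_cast hScard)
  have hn0 : (0 : ℝ) < n := by exact_mod_cast hn4
  have hcn : 1 < c * n := by
    have h1 : (N2 : ℝ) < n := by exact_mod_cast (by omega : N2 < n)
    have h2 := hN2.trans h1
    rw [div_lt_iff₀ hc] at h2
    linarith
  have hqn2 : q < n ^ 2 := by
    by_contra hcon
    rw [not_lt] at hcon
    have h1 : D = n ^ 2 := min_eq_right hcon
    rw [h1] at hcD
    push_cast at hcD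
    have h2 : (d : ℝ) ≤ n := by exact_mod_cast hdle
    nlinarith
  have hDq : D = q := min_eq_left hqn2.le
  rw [hDq] at hcD
  have hKc : 1 ≤ c * K := by
    rw [div_le_iff₀ hc] at hK
    linarith
  have hqK : q ≤ K * d := by
    have h1 : (q : ℝ) ≤ K * d := by
      have hq0 : (0 : ℝ) ≤ q := Nat.cast_nonneg _
      have hK0 : (0 : ℝ) ≤ K := Nat.cast_nonneg _
      calc (q : ℝ) ≤ (c * K) * q := by nlinarith
        _ = K * (c * q) := by ring
        _ ≤ K * d := by gcongr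
    exact_mod_cast h1
  obtain ⟨k, hk⟩ := hdq
  refine ⟨q, hq, hPq, ?_, ⟨d, k, hdn, ?_, ?_⟩, ?_⟩
  · calc q ≤ K * d := hqK
      _ ≤ (K + 1) * n := Nat.mul_le_mul (Nat.le_succ K) hdle
  · have h1 : d * k < d * (K + 1) := by
      have : q - 1 < K * d + 1 := by omega
      rw [hk] at this
      nlinarith
    have := Nat.lt_of_mul_lt_mul_left h1
    omega
  · rw [mul_comm k d, ← hk]; omega
  · obtain ⟨t, -, -, χ, hχ1, -, hχ⟩ := Pool.Agent.H471R4.BW.hch q d ⟨k, hk⟩ hdlt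
    refine ⟨χ, hχ1, fun l hl hlP => ?_⟩
    have h4 := hall l hl.one_lt.le hlP
    exact hχ _ (hpow _ (hne0 l h4) h4)

theorem gg_one_of (ε : ℝ) (hε : 1 / (4 * Real.exp (1 / 2)) < ε) :
    ∃ N : ℕ, ∀ n : ℕ, N ≤ n → ∀ A : ℕ, (n : ℝ) ^ ε ≤ A → PP n ≤ A → gg n A = 1 := by
  set b : ℝ := 1 / (4 * Real.exp (1 / 2)) with hb
  have hexp : 1 < Real.exp (1 / 2) := Real.one_lt_exp_iff.mpr (by norm_num)
  have hb0 : 0 < b := by positivity
  have hb1 : b < 1 := by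
    rw [hb, div_lt_one (by positivity)]
    linarith
  set e := min ε 1 with he
  have heb : b < e := lt_min hε hb1
  have he0 : 0 < e := hb0.trans heb
  have he1 : e ≤ 1 := min_le_right _ _
  obtain ⟨K, N1, hK1, hkey⟩ := keyA e he0 he1
  set δ : ℝ := (e - b) / 2 with hδ
  have hδ0 : 0 < δ := by rw [hδ]; linarith
  obtain ⟨q0, hburg⟩ := burg δ hδ0
  obtain ⟨N2, hN2⟩ := large e he0 q0
  obtain ⟨N3, hN3⟩ := large δ hδ0 ((K : ℝ) ^ (b + δ) + 1)
  refine ⟨max (max N1 N2) (max N3 1), fun n hn A hA hP => ?_⟩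
  have hn1 : N1 ≤ n := (le_max_left _ _).trans ((le_max_left _ _).trans hn)
  have hn2 : N2 ≤ n := (le_max_right _ _).trans ((le_max_left _ _).trans hn)
  have hn3 : N3 ≤ n := (le_max_left _ _).trans ((le_max_right _ _).trans hn)
  have hn4 : 1 ≤ n := (le_max_right _ _).trans ((le_max_right _ _).trans hn)
  have hn0 : (0 : ℝ) < n := by exact_mod_cast hn4
  have hn1' : (1 : ℝ) ≤ n := by exact_mod_cast hn4
  by_contra hne
  have hA' : (n : ℝ) ^ e ≤ A :=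
    (Real.rpow_le_rpow_of_exponent_le hn1' (min_le_left _ _)).trans hA
  obtain ⟨q, hq, hPq, hqK, -, χ, hχ, hall⟩ := hkey n hn1 A hA' hP hne
  have hq0 : q0 ≤ q := by
    have h1 : (q0 : ℝ) < q := ((hN2 n hn2).trans hA').trans_lt (by exact_mod_cast hPq)
    exact_mod_cast h1.le
  have h1 := hburg q hq0 hq χ hχ A hall
  rw [← hb] at h1
  have h2 : (q : ℝ) ^ (b + δ) ≤ ((K : ℝ) * n) ^ (b + δ) := by
    refine Real.rpow_le_rpow (Nat.cast_nonneg _) ?_ (by positivity)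
    exact_mod_cast hqK
  rw [Real.mul_rpow (Nat.cast_nonneg _) hn0.le] at h2
  have h3 : (K : ℝ) ^ (b + δ) < (n : ℝ) ^ δ := by linarith [hN3 n hn3]
  have h4 : (K : ℝ) ^ (b + δ) * (n : ℝ) ^ (b + δ) < (n : ℝ) ^ δ * (n : ℝ) ^ (b + δ) :=
    mul_lt_mul_of_pos_right h3 (Real.rpow_pos_of_pos hn0 _)
  rw [← Real.rpow_add hn0] at h4
  have h5 : δ + (b + δ) = e := by rw [hδ]; ring
  rw [h5] at h4
  linarith

theorem upper (θ ε : ℝ) (hθ : 1 / (4 * Real.exp (1 / 2)) ≤ θ) (hε : 0 < ε) :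
    ∃ N : ℕ, ∀ n : ℕ, N ≤ n → (PP n : ℝ) ≤ (n : ℝ) ^ θ →
      Real.log (cutoff n) ≤ (θ + ε) * (n * Real.log n) := by
  have hb0 : 0 < 1 / (4 * Real.exp (1 / 2)) := by positivity
  have hθ0 : 0 < θ := lt_of_lt_of_le hb0 hθ
  set e : ℝ := θ + ε / 2 with he
  have he0 : 0 < e := by rw [he]; positivity
  obtain ⟨N1, hN1⟩ := gg_one_of e (by rw [he]; linarith)
  obtain ⟨N2, hN2⟩ := large (ε / 2) (by positivity) 4
  obtain ⟨N3, hN3⟩ := large e he0 2
  refine ⟨max (max N1 N2) (max N3 1), fun n hn hP => ?_⟩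
  have hn1 : N1 ≤ n := (le_max_left _ _).trans ((le_max_left _ _).trans hn)
  have hn2 : N2 ≤ n := (le_max_right _ _).trans ((le_max_left _ _).trans hn)
  have hn3 : N3 ≤ n := (le_max_left _ _).trans ((le_max_right _ _).trans hn)
  have hn4 : 1 ≤ n := (le_max_right _ _).trans ((le_max_right _ _).trans hn)
  have hn0 : (0 : ℝ) < n := by exact_mod_cast hn4
  have hn1' : (1 : ℝ) ≤ n := by exact_mod_cast hn4
  set x : ℝ := (n : ℝ) ^ e with hx
  have hx2 : 2 ≤ x := hN3 n hn3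
  set A : ℕ := ⌈x⌉₊ with hA
  have hxA : x ≤ A := Nat.le_ceil x
  have hA2 : 2 ≤ A := by
    have : (2 : ℝ) ≤ A := by linarith
    exact_mod_cast this
  have hAx : (A : ℝ) ≤ x + 1 := (Nat.ceil_lt_add_one (by linarith)).le
  have hPA : PP n ≤ A := by
    have h1 : (n : ℝ) ^ θ ≤ x := Real.rpow_le_rpow_of_exponent_le hn1' (by rw [he]; linarith)
    have h2 : (PP n : ℝ) ≤ A := (hP.trans h1).trans hxA
    exact_mod_cast h2
  have hg : gg n A = 1 := hN1 n hn1 A hxA hPA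
  have hc : cutoff n ≤ (2 * A) ^ n :=
    Nat.sInf_le ⟨Nat.one_le_pow _ _ (by omega), fun k hk => adm_large hn4 hA2 hg hk⟩
  have hlogn : 0 ≤ Real.log n := Real.log_natCast_nonneg n
  rcases Nat.eq_zero_or_pos (cutoff n) with h0 | h0
  · rw [h0]
    simp only [Nat.cast_zero, Real.log_zero]
    positivity
  have h0' : (0 : ℝ) < cutoff n := by exact_mod_cast h0
  have h1 : (cutoff n : ℝ) ≤ (2 * (A : ℝ)) ^ n := by exact_mod_cast hc
  have hA0 : (0 : ℝ) < A := by linarith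
  have h4 : 2 * (A : ℝ) ≤ (n : ℝ) ^ (θ + ε) := by
    have h5 : (n : ℝ) ^ (θ + ε) = (n : ℝ) ^ (ε / 2) * x := by
      rw [hx, ← Real.rpow_add hn0]
      congr 1
      rw [he]; ring
    rw [h5]
    have h6 := hN2 n hn2
    nlinarith
  calc Real.log (cutoff n) ≤ Real.log ((2 * (A : ℝ)) ^ n) := Real.log_le_log h0' h1
    _ = n * Real.log (2 * A) := by rw [Real.log_pow]
    _ ≤ n * Real.log ((n : ℝ) ^ (θ + ε)) :=
        mul_le_mul_of_nonneg_left (Real.log_le_log (by positivity) h4) hn0.le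
    _ = (θ + ε) * (n * Real.log n) := by
        rw [Real.log_rpow hn0]; ring

theorem PP_odd {n : ℕ} (hn : Odd n) : PP n = 2 := by
  have hn1 : 1 ≤ n := hn.pos
  obtain ⟨hp, hd⟩ := PP_mem hn1
  rcases hp.eq_two_or_odd' with h | h
  · exact h
  · exfalso
    have h2 : 2 ∣ PP n - 1 := by
      obtain ⟨k, hk⟩ := h
      rw [hk]
      exact ⟨k, by omega⟩
    have h3 : 2 ∣ n := dvd_trans h2 hd
    obtain ⟨k, hk⟩ := hn
    omega

end Pool.Agent.H172.EW
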