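import Mathlib
import Pool.Prelude.Def_F_cef2bd1b
import Pool.Graph.R_seed8.H17HN.Tiling
import Pool.Graph.R_seed8.Y165.HN.Key
import Pool.Graph.R_seed8.Y165.HN.Burg
import Pool.Graph.R_seed8.Y165.HN.Stm
import Pool.Graph.R_seed8.Y369.HN.PER
import Pool.Graph.R_seed8.Y813.HN.Rare
import Pool.Graph.R_seed8.Y306.HN.Count
import Pool.Agent.H172.EW.Odd

/-!
# The exceptional set

The argument of the library module `Y165.HN.MainC` with the bound
`AA ε n = max (P n) ⌈n ^ ε⌉` in place of `P n`.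
-/

set_option autoImplicit false

namespace Pool.Agent.H172.EW

open Finset N0a8789b9 Pool.Agent.H17HN Pool.Agent.Y165.HN

/-- the larger one of `P n` and `⌈n ^ ε⌉` -/
noncomputable def AA (ε : ℝ) (n : ℕ) : ℕ := max (PP n) ⌈(n : ℝ) ^ ε⌉₊

theorem PP_le_AA (ε : ℝ) (n : ℕ) : PP n ≤ AA ε n := le_max_left _ _

theorem le_AA (ε : ℝ) (n : ℕ) : (n : ℝ) ^ ε ≤ AA ε n := by
  refine (Nat.le_ceil _).trans ?_
  exact_mod_cast le_max_right (PP n) ⌈(n : ℝ) ^ ε⌉₊

open Classical in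
/-- one dyadic block -/
theorem blockA (hR : RARE) (hC : COUNT) (ε η : ℝ) (hε : 0 < ε) (hε1 : ε ≤ 1) (hη0 : 0 < η)
    (hη1 : η ≤ 1) (hη : η / (4 * Real.exp (1 / 2)) < ε) :
    ∃ C : ℝ, 0 ≤ C ∧ ∀ x : ℕ, 1 ≤ x →
      (((Ioc (x / 2) x).filter fun n : ℕ => gg n (AA ε n) ≠ 1).card : ℝ) ≤
        C * (x : ℝ) ^ (1 - η) := by
  set b : ℝ := 1 / (4 * Real.exp (1 / 2)) with hb
  have hb0 : 0 < b := by positivity
  have hbη : η * b < ε := by
    have : η * b = η / (4 * Real.exp (1 / 2)) := by rw [hb]; ring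
    rwa [this]
  obtain ⟨K, N1, hK1, hkey⟩ := keyA ε hε hε1
  obtain ⟨C0, hC1⟩ := hR (ε / 2) (by positivity)
  obtain ⟨C', hC2⟩ := hC η C0 K hη0 hη1
  obtain ⟨N2, hN2⟩ := large ε hε 3
  -- `δ` with `η (b + δ) < ε`
  set δ : ℝ := (ε - η * b) / (2 * η) with hδ
  have hδ0 : 0 < δ := div_pos (by linarith) (by positivity)
  have hbd : η * (b + δ) = (ε + η * b) / 2 := by
    rw [hδ]
    field_simp
    ring
  set γ : ℝ := (ε - η * b) / 2 with hγ
  have hγ0 : 0 < γ := by rw [hγ]; linarith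
  obtain ⟨q0, hburg⟩ := burg δ hδ0
  obtain ⟨N3, hN3⟩ := large ε hε q0
  obtain ⟨N4, hN4⟩ := large γ hγ0 ((2 : ℝ) ^ (η * (b + δ)) + 1)
  set N := max (max (max N1 N2) (max N3 N4)) (max K 1) with hN
  refine ⟨max ((2 * N : ℕ) : ℝ) C', le_max_of_le_left (Nat.cast_nonneg _), fun x hx => ?_⟩
  have hx0 : (0 : ℝ) < x := by exact_mod_cast hx
  have hx1 : (1 : ℝ) ≤ x := by exact_mod_cast hx
  have hxa : (1 : ℝ) ≤ (x : ℝ) ^ (1 - η) := Real.one_le_rpow hx1 (by linarith)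
  rcases Nat.lt_or_ge x (2 * N) with hxN | hxN
  · have h1 : (((Ioc (x / 2) x).filter
        fun n : ℕ => gg n (AA ε n) ≠ 1).card : ℝ) ≤ ((2 * N : ℕ) : ℝ) := by
      have h2 : ((Ioc (x / 2) x).filter
          fun n : ℕ => gg n (AA ε n) ≠ 1).card ≤ x := by
        refine (card_filter_le _ _).trans ?_
        rw [Nat.card_Ioc]
        omega
      exact_mod_cast h2.trans hxN.le
    calc _ ≤ ((2 * N : ℕ) : ℝ) := h1
      _ ≤ max ((2 * N : ℕ) : ℝ) C' := le_max_left _ _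
      _ ≤ max ((2 * N : ℕ) : ℝ) C' * (x : ℝ) ^ (1 - η) :=
          le_mul_of_one_le_right (le_max_of_le_left (Nat.cast_nonneg _)) hxa
  · have h := hC2 {q | Exc (ε / 2) q} (fun Q F hF => hC1 Q F hF) x hx
      ((Ioc (x / 2) x).filter fun n : ℕ => gg n (AA ε n) ≠ 1) ?_
    · refine h.trans ?_
      gcongr
      exact le_max_right _ _
    intro n hn
    rw [mem_filter, mem_Ioc] at hn
    obtain ⟨⟨h1, h2⟩, hg⟩ := hn
    have h5 := le_AA ε n
    have hNn : N ≤ n := by omega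
    have hn1 : N1 ≤ n :=
      ((le_max_left _ _).trans ((le_max_left _ _).trans (le_max_left _ _))).trans hNn
    have hn2 : N2 ≤ n :=
      ((le_max_right _ _).trans ((le_max_left _ _).trans (le_max_left _ _))).trans hNn
    have hn3 : N3 ≤ n :=
      ((le_max_left _ _).trans ((le_max_right _ _).trans (le_max_left _ _))).trans hNn
    have hn4 : N4 ≤ n :=
      ((le_max_right _ _).trans ((le_max_right _ _).trans (le_max_left _ _))).trans hNn
    have hnK : K ≤ n := ((le_max_left _ _).trans (le_max_right _ _)).trans hNn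
    have hnpos : 1 ≤ n := ((le_max_right _ _).trans (le_max_right _ _)).trans hNn
    have hn0 : (0 : ℝ) < n := by exact_mod_cast hnpos
    obtain ⟨q, hq, hPq, hqK, ⟨d, k, hd, hk, hqd⟩, χ, hχ, hall⟩ :=
      hkey n hn1 (AA ε n) h5 (PP_le_AA ε n) hg
    refine ⟨hnpos, h2, q, ⟨hq, χ, hχ, fun l hl hlq => hall l hl ?_⟩, ?_, d, k, hd, hk, hqd⟩
    · have h7 : (q : ℝ) ^ (ε / 2) ≤ (n : ℝ) ^ ε := by
        have h8 : (q : ℝ) ≤ (n : ℝ) ^ (2 : ℝ) := by
          rw [Real.rpow_two]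
          have h9 : q ≤ n ^ 2 := by
            rw [pow_two]
            exact hqK.trans (Nat.mul_le_mul_right n hnK)
          exact_mod_cast h9
        calc (q : ℝ) ^ (ε / 2) ≤ ((n : ℝ) ^ (2 : ℝ)) ^ (ε / 2) :=
              Real.rpow_le_rpow (Nat.cast_nonneg _) h8 (by positivity)
          _ = (n : ℝ) ^ ε := by
              rw [← Real.rpow_mul (Nat.cast_nonneg _)]
              congr 1
              ring
      have h10 : (l : ℝ) ≤ AA ε n := (hlq.trans h7).trans h5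
      exact_mod_cast h10
    · have hq0 : q0 ≤ q := by
        have h1 : (q0 : ℝ) < q := ((hN3 n hn3).trans h5).trans_lt (by exact_mod_cast hPq)
        exact_mod_cast h1.le
      have h7 := hburg q hq0 hq χ hχ (AA ε n) hall
      rw [← hb] at h7
      have h8 : (n : ℝ) ^ ε ≤ (q : ℝ) ^ (b + δ) := h5.trans h7
      -- `x ^ (η (b + δ)) ≤ n ^ ε`
      have hx2 : (x : ℝ) ≤ 2 * n := by
        have : x ≤ 2 * n := by omega
        exact_mod_cast this
      have h9 : (x : ℝ) ^ (η * (b + δ)) < (n : ℝ) ^ ε := by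
        have hpos : 0 < η * (b + δ) := by positivity
        calc (x : ℝ) ^ (η * (b + δ)) ≤ (2 * (n : ℝ)) ^ (η * (b + δ)) :=
              Real.rpow_le_rpow hx0.le hx2 hpos.le
          _ = 2 ^ (η * (b + δ)) * (n : ℝ) ^ (η * (b + δ)) :=
              Real.mul_rpow (by norm_num) hn0.le
          _ < (n : ℝ) ^ γ * (n : ℝ) ^ (η * (b + δ)) :=
              mul_lt_mul_of_pos_right (by linarith [hN4 n hn4]) (Real.rpow_pos_of_pos hn0 _)
          _ = (n : ℝ) ^ ε := by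
              rw [← Real.rpow_add hn0, hbd, hγ]
              congr 1
              ring
      have h10 : ((x : ℝ) ^ η) ^ (b + δ) < (q : ℝ) ^ (b + δ) := by
        rw [← Real.rpow_mul hx0.le]
        exact h9.trans_le h8
      exact (Real.rpow_lt_rpow_iff (by positivity) (Nat.cast_nonneg _) (by positivity)).1 h10

open Classical in
/-- the exceptional set -/
theorem main_DA (hR : RARE) (hC : COUNT) (ε η : ℝ) (hε : 0 < ε) (hε1 : ε ≤ 1) (hη0 : 0 < η)
    (hη1 : η < 1) (hη : η / (4 * Real.exp (1 / 2)) < ε) :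
    ∃ C : ℝ, ∀ x : ℕ,
      (((Icc 1 x).filter fun n : ℕ => gg n (AA ε n) ≠ 1).card : ℝ) ≤
        C * (x : ℝ) ^ (1 - η) := by
  obtain ⟨C, hC0, hblock⟩ := blockA hR hC ε η hε hε1 hη0 hη1.le hη
  set r : ℝ := (1 / 2 : ℝ) ^ (1 - η) with hr
  have hr0 : 0 < r := by positivity
  have hr1 : r < 1 := Real.rpow_lt_one (by norm_num) (by norm_num) (by linarith)
  refine ⟨C / (1 - r), fun x => ?_⟩
  induction x using Nat.strong_induction_on with
  | _ x ih =>
    rcases Nat.eq_zero_or_pos x with h0 | hx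
    · subst h0
      simp [Real.zero_rpow (by linarith : (1 - η : ℝ) ≠ 0)]
    · have hlt : x / 2 < x := Nat.div_lt_self hx (by norm_num)
      have h1 := ih (x / 2) hlt
      have h2 := hblock x hx
      have h3 : ((Icc 1 x).filter fun n : ℕ => gg n (AA ε n) ≠ 1) ⊆
          ((Icc 1 (x / 2)).filter fun n : ℕ => gg n (AA ε n) ≠ 1) ∪
          ((Ioc (x / 2) x).filter fun n : ℕ => gg n (AA ε n) ≠ 1) := by
        intro n hn
        rw [mem_filter, mem_Icc] at hn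
        rw [mem_union, mem_filter, mem_filter, mem_Icc, mem_Ioc]
        by_cases h : n ≤ x / 2
        · exact Or.inl ⟨⟨hn.1.1, h⟩, hn.2⟩
        · exact Or.inr ⟨⟨not_le.1 h, hn.1.2⟩, hn.2⟩
      have h4 : ((((Icc 1 x).filter fun n : ℕ => gg n (AA ε n) ≠ 1).card : ℕ) : ℝ) ≤
          ((((Icc 1 (x / 2)).filter fun n : ℕ => gg n (AA ε n) ≠ 1).card : ℕ) : ℝ) +
          ((((Ioc (x / 2) x).filter fun n : ℕ => gg n (AA ε n) ≠ 1).card : ℕ) : ℝ) := by
        exact_mod_cast (card_le_card h3).trans (card_union_le _ _)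
      have h5 : (((x / 2 : ℕ) : ℝ)) ^ (1 - η) ≤ r * (x : ℝ) ^ (1 - η) := by
        rw [hr, ← Real.mul_rpow (by norm_num) (Nat.cast_nonneg _)]
        refine Real.rpow_le_rpow (Nat.cast_nonneg _) ?_ (by linarith)
        have : ((x / 2 : ℕ) : ℝ) ≤ (x : ℝ) / 2 := Nat.cast_div_le
        linarith
      have h6 : 0 ≤ C / (1 - r) := div_nonneg hC0 (by linarith)
      calc _ ≤ C / (1 - r) * (((x / 2 : ℕ) : ℝ)) ^ (1 - η) + C * (x : ℝ) ^ (1 - η) := by linarith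
        _ ≤ C / (1 - r) * (r * (x : ℝ) ^ (1 - η)) + C * (x : ℝ) ^ (1 - η) := by gcongr
        _ = C / (1 - r) * (x : ℝ) ^ (1 - η) := by
            have : 1 - r ≠ 0 := by linarith
            field_simp
            ring

theorem rare_AA (e η : ℝ) (he : 0 < e) (he1 : e ≤ 1) (hη0 : 0 < η) (hη1 : η < 1)
    (hη : η / (4 * Real.exp (1 / 2)) < e) :
    ∃ C : ℝ, ∀ x : ℕ, ({n : ℕ | 1 ≤ n ∧ n ≤ x ∧ gg n (AA e n) ≠ 1}.ncard : ℝ) ≤
      C * (x : ℝ) ^ (1 - η) := by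
  classical
  obtain ⟨C, hC⟩ := main_DA (Pool.Agent.Y813.HN.t_RARE Pool.Agent.H471R4.BW.smo
    Pool.Agent.Y369.HN.t_PER) Pool.Agent.Y306.HN.t_COUNT e η he he1 hη0 hη1 hη
  refine ⟨C, fun x => ?_⟩
  have h1 : {n : ℕ | 1 ≤ n ∧ n ≤ x ∧ gg n (AA e n) ≠ 1} =
      (((Finset.Icc 1 x).filter fun n : ℕ => gg n (AA e n) ≠ 1 : Finset ℕ) : Set ℕ) := by
    ext n
    simp only [Set.mem_setOf_eq, Finset.coe_filter, Finset.mem_Icc, and_assoc]
  rw [h1, Set.ncard_coe_finset]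
  convert hC x

/-- the bound for the cutoff when `AA e n` is large enough -/
theorem bound_AA (θ ε e : ℝ) (hε : 0 < ε) (he0 : 0 < e) (he : e ≤ θ + ε / 2) :
    ∃ N : ℕ, ∀ n : ℕ, N ≤ n → gg n (AA e n) = 1 →
      Real.log (cutoff n) ≤
        n * max (Real.log (PP n)) (θ * Real.log n) + ε * (n * Real.log n) := by
  obtain ⟨N2, hN2⟩ := large (ε / 2) (by positivity) 4
  refine ⟨max N2 2, fun n hn hg => ?_⟩
  have hn2 : N2 ≤ n := (le_max_left _ _).trans hn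
  have hn3 : 2 ≤ n := (le_max_right _ _).trans hn
  have hn4 : 1 ≤ n := by omega
  have hn0 : (0 : ℝ) < n := by exact_mod_cast hn4
  have hn1' : (1 : ℝ) ≤ n := by exact_mod_cast hn4
  have hP2 : 2 ≤ PP n := (PP_mem hn4).1.two_le
  have hA2 : 2 ≤ AA e n := hP2.trans (PP_le_AA e n)
  have hc : cutoff n ≤ (2 * AA e n) ^ n :=
    Nat.sInf_le ⟨Nat.one_le_pow _ _ (by omega), fun k hk => adm_large hn4 hA2 hg hk⟩
  have hlogn : 0 ≤ Real.log n := Real.log_natCast_nonneg n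
  have hlogP : 0 ≤ Real.log (PP n) := Real.log_natCast_nonneg _
  have hP0 : (0 : ℝ) < PP n := by
    have : 0 < PP n := by omega
    exact_mod_cast this
  rcases Nat.eq_zero_or_pos (cutoff n) with h0 | h0
  · rw [h0]
    simp only [Nat.cast_zero, Real.log_zero]
    have : 0 ≤ max (Real.log (PP n)) (θ * Real.log n) := le_max_of_le_left hlogP
    positivity
  have h0' : (0 : ℝ) < cutoff n := by exact_mod_cast h0
  have h1 : (cutoff n : ℝ) ≤ (2 * (AA e n : ℝ)) ^ n := by exact_mod_cast hc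
  have hA0 : (0 : ℝ) < AA e n := by
    have : 0 < AA e n := by omega
    exact_mod_cast this
  set M : ℝ := max (Real.log (PP n)) (θ * Real.log n) with hM
  have hPM : (PP n : ℝ) ≤ Real.exp M := by
    rw [← Real.log_le_iff_le_exp hP0]
    exact le_max_left _ _
  have hxM : (n : ℝ) ^ e ≤ Real.exp (M + ε / 2 * Real.log n) := by
    rw [Real.rpow_def_of_pos hn0]
    refine Real.exp_le_exp.2 ?_
    have h2 : θ * Real.log n ≤ M := le_max_right _ _
    nlinarith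
  have h4 : 2 * (AA e n : ℝ) ≤ Real.exp (M + ε * Real.log n) := by
    have h5 : Real.exp (M + ε * Real.log n) = (n : ℝ) ^ (ε / 2) *
        Real.exp (M + ε / 2 * Real.log n) := by
      rw [Real.rpow_def_of_pos hn0, ← Real.exp_add]
      congr 1
      ring
    have h6 := hN2 n hn2
    have h7 : (PP n : ℝ) ≤ Real.exp (M + ε / 2 * Real.log n) :=
      hPM.trans (Real.exp_le_exp.2 (by nlinarith))
    have h8 : (AA e n : ℝ) ≤ 2 * Real.exp (M + ε / 2 * Real.log n) := by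
      unfold AA
      push_cast
      refine max_le (by linarith) ?_
      have h9 := (Nat.ceil_lt_add_one (Real.rpow_nonneg hn0.le e : 0 ≤ (n : ℝ) ^ e)).le
      have h10 : (1 : ℝ) ≤ (n : ℝ) ^ e := Real.one_le_rpow hn1' he0.le
      linarith
    rw [h5]
    have h11 : 0 < Real.exp (M + ε / 2 * Real.log n) := Real.exp_pos _
    nlinarith
  calc Real.log (cutoff n) ≤ Real.log ((2 * (AA e n : ℝ)) ^ n) := Real.log_le_log h0' h1
    _ = n * Real.log (2 * AA e n) := by rw [Real.log_pow]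
    _ ≤ n * (M + ε * Real.log n) := by
        refine mul_le_mul_of_nonneg_left ?_ hn0.le
        rw [Real.log_le_iff_le_exp (by positivity)]
        exact h4
    _ = n * M + ε * (n * Real.log n) := by ring

/-- all large `n`, if `θ ≥ 1 / (4 √e)` -/
theorem all_large (θ ε : ℝ) (hθ : 1 / (4 * Real.exp (1 / 2)) ≤ θ) (hε : 0 < ε) :
    ∃ N : ℕ, ∀ n : ℕ, N ≤ n → Real.log (cutoff n) ≤
        n * max (Real.log (PP n)) (θ * Real.log n) + ε * (n * Real.log n) := by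
  have hb0 : 0 < 1 / (4 * Real.exp (1 / 2)) := by positivity
  obtain ⟨N1, h1⟩ := gg_one_of (θ + ε / 2) (by linarith)
  obtain ⟨N2, h2⟩ := bound_AA θ ε (θ + ε / 2) hε (by linarith) le_rfl
  refine ⟨max N1 N2, fun n hn => h2 n ((le_max_right _ _).trans hn) ?_⟩
  exact h1 n ((le_max_left _ _).trans hn) _ (le_AA _ n) (PP_le_AA _ n)

/-- changing finitely many numbers -/
theorem adj (Q R : ℕ → Prop) (s C : ℝ) (hs : 0 ≤ s) (N0 : ℕ)
    (h : ∀ n, N0 ≤ n → 1 ≤ n → R n → Q n)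
    (hC : ∀ x : ℕ, ({n : ℕ | 1 ≤ n ∧ n ≤ x ∧ Q n}.ncard : ℝ) ≤ C * (x : ℝ) ^ s) (x : ℕ)
    (hx : 1 ≤ x) :
    ({n : ℕ | 1 ≤ n ∧ n ≤ x ∧ R n}.ncard : ℝ) ≤ (C + N0) * (x : ℝ) ^ s := by
  have hfin : {n : ℕ | 1 ≤ n ∧ n ≤ x ∧ Q n}.Finite :=
    (Set.finite_Iic x).subset fun n hn => hn.2.1
  have hsub : {n : ℕ | 1 ≤ n ∧ n ≤ x ∧ R n} ⊆
      {n : ℕ | 1 ≤ n ∧ n ≤ x ∧ Q n} ∪ ((Finset.range N0 : Finset ℕ) : Set ℕ) := by
    rintro n ⟨h1, h2, h3⟩
    by_cases hn : N0 ≤ n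
    · exact Or.inl ⟨h1, h2, h n hn h1 h3⟩
    · exact Or.inr (by simpa using hn)
  have h1 := (Set.ncard_le_ncard hsub (hfin.union (Finset.finite_toSet _))).trans
    (Set.ncard_union_le _ _)
  rw [Set.ncard_coe_finset, Finset.card_range] at h1
  have h2 : ({n : ℕ | 1 ≤ n ∧ n ≤ x ∧ R n}.ncard : ℝ) ≤
      ({n : ℕ | 1 ≤ n ∧ n ≤ x ∧ Q n}.ncard : ℝ) + N0 := by exact_mod_cast h1
  have hx1 : (1 : ℝ) ≤ (x : ℝ) ^ s := Real.one_le_rpow (by exact_mod_cast hx) hs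
  have h3 := hC x
  have h4 : (0 : ℝ) ≤ N0 := Nat.cast_nonneg _
  nlinarith

/-- the exceptional set -/
theorem rare (θ η ε : ℝ) (hη0 : 0 < η) (hη1 : η < 1) (hη : η / (4 * Real.exp (1 / 2)) ≤ θ)
    (hε : 0 < ε) : ∃ C : ℝ, ∀ x : ℕ, 1 ≤ x →
      ({n : ℕ | 1 ≤ n ∧ n ≤ x ∧ ¬ Real.log (cutoff n) ≤
        n * max (Real.log (PP n)) (θ * Real.log n) + ε * (n * Real.log n)}.ncard : ℝ) ≤
        C * (x : ℝ) ^ (1 - η) := by
  have hexp : 1 < Real.exp (1 / 2) := Real.one_lt_exp_iff.mpr (by norm_num)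
  have hη' : 0 < η / (4 * Real.exp (1 / 2)) := by positivity
  have hη1' : η / (4 * Real.exp (1 / 2)) < 1 := by
    rw [div_lt_one (by positivity)]
    linarith
  set e : ℝ := min (θ + ε / 2) 1 with he
  have hηe : η / (4 * Real.exp (1 / 2)) < e := lt_min (by linarith) hη1'
  have he0 : 0 < e := hη'.trans hηe
  obtain ⟨C, hC⟩ := rare_AA e η he0 (min_le_right _ _) hη0 hη1 hηe
  obtain ⟨N0, hN0⟩ := bound_AA θ ε e hε he0 (min_le_left _ _)
  refine ⟨C + N0, fun x hx => adj (fun n => gg n (AA e n) ≠ 1) _ (1 - η) C (by linarith) N0 ?_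
    hC x hx⟩
  intro n hn _ hR hQ
  exact hR (hN0 n hn hQ)

/-- the exceptional set, odd numbers -/
theorem rare_odd (η ε : ℝ) (hη0 : 0 < η) (hη1 : η < 1) (hε : 0 < ε) :
    ∃ C : ℝ, ∀ x : ℕ, 1 ≤ x →
      ({n : ℕ | 1 ≤ n ∧ n ≤ x ∧ (Odd n ∧ ¬ Real.log (cutoff n) ≤
        (η / (4 * Real.exp (1 / 2)) + ε) * (n * Real.log n))}.ncard : ℝ) ≤
        C * (x : ℝ) ^ (1 - η) := by
  have hexp : 1 < Real.exp (1 / 2) := Real.one_lt_exp_iff.mpr (by norm_num)
  have hη' : 0 < η / (4 * Real.exp (1 / 2)) := by positivity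
  have hη1' : η / (4 * Real.exp (1 / 2)) < 1 := by
    rw [div_lt_one (by positivity)]
    linarith
  set θ : ℝ := η / (4 * Real.exp (1 / 2)) with hθ
  set e : ℝ := min (θ + ε / 2) 1 with he
  have hηe : θ < e := lt_min (by linarith) hη1'
  have he0 : 0 < e := hη'.trans hηe
  obtain ⟨C, hC⟩ := rare_AA e η he0 (min_le_right _ _) hη0 hη1 hηe
  obtain ⟨N0, hN0⟩ := bound_AA θ ε e hε he0 (min_le_left _ _)
  obtain ⟨N1, hN1⟩ := large θ hη' 2
  refine ⟨C + (max N0 N1 : ℕ), fun x hx => adj (fun n => gg n (AA e n) ≠ 1) _ (1 - η) C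
    (by linarith) (max N0 N1) ?_ hC x hx⟩
  rintro n hn hn1 ⟨hodd, hR⟩ hQ
  apply hR
  have hn0 : (0 : ℝ) < n := by exact_mod_cast hn1
  have h := hN0 n ((le_max_left _ _).trans hn) hQ
  have h2 := hN1 n ((le_max_right _ _).trans hn)
  have h3 : Real.log (PP n) ≤ θ * Real.log n := by
    rw [PP_odd hodd, ← Real.log_rpow hn0]
    exact Real.log_le_log (by norm_num) (by exact_mod_cast h2)
  rw [max_eq_right h3] at h
  linarith

end Pool.Agent.H172.EW
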